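import Pool.Agent.Y99.NF.Defs

/-!
# Motivic and `ℓ`-adic homology of varieties and of function fields over a finite field: properties
-/

set_option autoImplicit false

open CategoryTheory AlgebraicGeometry

namespace Pool.Agent.Y99.NF

open Pool.Agent.Y116.UV Pool.Agent.Y101.Th

variable {k Ω : Type} [Field k] [Field Ω]

/-- The `ℓ`-adic homology groups of the locally closed subsets have finite dimension. -/
def HasFinite (T : Theory k Ω) : Prop :=
  ∀ X : Sch k, FT True X → ∀ S : Set X.left, IsLocallyClosed S → ∀ a b,
    FiniteDimensional Ω (T.H X S a b).E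

/-- `push S S` is the identity. -/
def HasPushSelf (T : Theory k Ω) : Prop :=
  ∀ X : Sch k, FT True X → ∀ S : Set X.left, IsLocallyClosed S → ∀ a b,
    (∀ x, (T.push X S S a b).f x = x) ∧ ∀ x, (T.push X S S a b).g x = x

/-- Push-forwards are functorial. -/
def HasPush (T : Theory k Ω) : Prop :=
  ∀ X : Sch k, FT True X → ∀ Z Z' S : Set X.left, IsLocallyClosed S → ClosedIn Z Z' →
    ClosedIn Z' S → ∀ a b, Comp (T.push X Z Z' a b) (T.push X Z' S a b) (T.push X Z S a b)

/-- Restrictions are functorial. -/
def HasRes (T : Theory k Ω) : Prop :=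
  ∀ X : Sch k, FT True X → ∀ V U S : Set X.left, IsLocallyClosed S → OpenIn V U →
    OpenIn U S → ∀ a b, Comp (T.res X S U a b) (T.res X U V a b) (T.res X S V a b)

/-- The localisation sequences are exact. -/
def HasLocalization (T : Theory k Ω) : Prop :=
  ∀ X : Sch k, FT True X → ∀ Z S U : Set X.left, Tri Z S U → ∀ a b,
    Exact (T.push X Z S a b) (T.res X S U a b) ∧ Exact (T.res X S U (a + 1) b) (T.bd X U Z a b) ∧
      Exact (T.bd X U Z a b) (T.push X Z S a b)

/-- Boundary maps are compatible with the push-forward from a closed subset `U'` of `U`. -/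
def HasBd (T : Theory k Ω) : Prop :=
  ∀ X : Sch k, FT True X → ∀ Z S U U' : Set X.left, Tri Z S U → ClosedIn U' U → ∀ a b,
    Comp (T.push X U' U (a + 1) b) (T.bd X U Z a b) (T.bd X U' Z a b)

/-- Formal properties of the homology of the locally closed subsets of separated schemes of finite type:
finite dimension, functoriality of push-forwards and restrictions, exact localisation sequences, and
their compatibility with the push-forward from a closed subset of `U`. -/
structure IsHomology (T : Theory k Ω) : Prop where
  finite : HasFinite T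
  push_self : HasPushSelf T
  push_push : HasPush T
  res_res : HasRes T
  exact : HasLocalization T
  bd_push : HasBd T

/-- Passage to the generic point is compatible with restrictions. -/
def HasGenRes (T : Theory k Ω) : Prop :=
  ∀ X : Sch k, FT True X → ∀ U S : Set X.left, IsLocallyClosed S → OpenIn U S → ∀ x,
    IsMax S x → x ∈ U → ∀ a b i j, Idx X x a b i j →
      Comp (T.res X S U a b) (T.gen X U x a b i j) (T.gen X S x a b i j)

/-- Elements which vanish at the generic point `x` of `S` vanish on a neighbourhood of `x`. -/
def HasGenZero (T : Theory k Ω) : Prop :=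
  ∀ X : Sch k, FT True X → ∀ S : Set X.left, IsLocallyClosed S → ∀ x, IsMax S x →
    ∀ a b i j, Idx X x a b i j →
      (∀ m, (T.gen X S x a b i j).f m = 0 → ∃ U, OpenIn U S ∧ x ∈ U ∧ (T.res X S U a b).f m = 0) ∧
      ∀ e, (T.gen X S x a b i j).g e = 0 → ∃ U, OpenIn U S ∧ x ∈ U ∧ (T.res X S U a b).g e = 0

/-- Elements at the generic point `x` come from a neighbourhood of `x`. -/
def HasGenOnto (T : Theory k Ω) : Prop :=
  ∀ X : Sch k, FT True X → ∀ S : Set X.left, IsLocallyClosed S → ∀ x, IsMax S x →
    ∀ a b i j, Idx X x a b i j → ∀ e : (T.G (kappa X x) i j).E,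
      ∃ U, OpenIn U S ∧ x ∈ U ∧ ∃ z, (T.gen X U x a b i j).g z = e

/-- The groups of the residue field of a maximal point `x` of `S` are the direct limits of the groups
of the open neighbourhoods of `x` in `S`. -/
structure IsGeneric (T : Theory k Ω) : Prop where
  gen_res : HasGenRes T
  gen_zero : HasGenZero T
  gen_onto : HasGenOnto T

/-- Pull-backs for extensions of fields are functorial. -/
def HasPull (T : Theory k Ω) : Prop :=
  (∀ (K : Fld k) (i j : ℤ) (x : (T.G K i j).E), (T.pull (AlgHom.id k K) i j).g x = x) ∧
    ∀ {K L N : Fld k} (f : K →ₐ[k] L) (g : L →ₐ[k] N) (i j : ℤ),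
      Comp (T.pull f i j) (T.pull g i j) (T.pull (g.comp f) i j)

/-- Pull-backs for extensions of finitely generated fields are injective. -/
def HasInjective (T : Theory k Ω) : Prop :=
  ∀ {K L : Fld k}, FG K → FG L → ∀ (f : K →ₐ[k] L) (i j : ℤ), Function.Injective (T.pull f i j).g

/-- The `ℓ`-adic cohomology of a field vanishes in the degrees above its transcendence degree. -/
def HasVanishing (T : Theory k Ω) : Prop :=
  ∀ K : Fld k, FG K → ∀ i j : ℤ, td K < i → ∀ e : (T.G K i j).E, e = 0

/-- The residue maps are surjective and compatible with the Frobenius. -/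
def HasResidue (T : Theory k Ω) : Prop :=
  ∀ K : Fld k, FG K → ∀ (p : Polynomial K) [Fact (Irreducible p)] (i j : ℤ),
    Function.Surjective (T.residue K p i j) ∧ ∀ x, (T.G (adj K p) i j).frob (T.residue K p i j x) =
      T.residue K p i j ((T.G (ratF K) (i + 1) (j + 1)).frob x)

/-- The classes over `K(t)` without residues are the classes coming from `K`. -/
def HasResidueZero (T : Theory k Ω) : Prop :=
  ∀ K : Fld k, FG K → ∀ (i j : ℤ) (x : (T.G (ratF K) (i + 1) (j + 1)).E),
    (∀ (p : Polynomial K) [Fact (Irreducible p)], T.residue K p i j x = 0) ↔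
      ∃ y, (T.pull (incl K) (i + 1) (j + 1)).g y = x

/-- Properties of the cohomology of finitely generated fields: functoriality, injectivity for
extensions, vanishing of the `ℓ`-adic groups in the degrees above the transcendence degree, and the
localisation sequence of the affine line over `K`: the residue maps to the residue fields `K[t]/(p)` are
compatible with the Frobenius and surjective, and the classes over `K(t)` without residues are those
coming from `K`. -/
structure IsCohomology (T : Theory k Ω) : Prop where
  pull : HasPull T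
  injective : HasInjective T
  vanish : HasVanishing T
  residue : HasResidue T
  residue_zero : HasResidueZero T

/-- `CH^j(Spec K, 2 j - i) = 0` for `j < i`. -/
def MotivicVanishing (T : Theory k Ω) : Prop :=
  ∀ K : Fld k, FG K → ∀ i j : ℤ, j < i → ∀ m : (T.G K i j).M, m = 0

/-- If `dim S ≤ b`, the part of `H_{2b}(S, ℚ_ℓ(b))` on which the Frobenius is unipotent is spanned by
fundamental classes of subvarieties. -/
def FundamentalClasses (T : Theory k Ω) : Prop :=
  ∀ X : Sch k, FT True X → ∀ S : Set X.left, IsLocallyClosed S → ∀ b, DimLE S b →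
    ∀ e : (T.H X S (2 * b) b).E, (T.H X S (2 * b) b).Unip e → e ∈ Set.range (T.H X S (2 * b) b).reg

/-- If `dim S ≤ b + 1`, the cycle class map `CH_b(S) ⊗ ℚ_ℓ → H_{2b}(S, ℚ_ℓ(b))` is injective (Picard
varieties have only finitely many rational points; Kummer theory). -/
def DivisorClasses (T : Theory k Ω) : Prop :=
  ∀ X : Sch k, FT True X → ∀ S : Set X.left, IsLocallyClosed S → ∀ b, DimLE S (b + 1) →
    Function.Injective (T.H X S (2 * b) b).reg

/-- For `X` smooth projective, `H_a(X, ℚ_ℓ(b))` is pure of weight `2 b - a` (Deligne). -/
def Purity (T : Theory k Ω) : Prop :=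
  ∀ X : Sch k, SmProj X → ∀ a b : ℤ, a ≠ 2 * b → ∀ e : (T.H X Set.univ a b).E,
    (T.H X Set.univ a b).frob e = e → e = 0

/-- For `S` of dimension `≤ n` there is a smooth projective `Y` of dimension `≤ n` whose homology is
mapped onto the part of `H_{2b}(S, ℚ_ℓ(b))` on which the Frobenius is unipotent (it lies in the lowest
weight zero; de Jong, Deligne). -/
def Resolutions (T : Theory k Ω) : Prop :=
  ∀ X : Sch k, FT True X → ∀ S : Set X.left, IsLocallyClosed S → ∀ n, DimLE S n →
    ∃ Y : Sch k, SmProj Y ∧ DimLE (Set.univ : Set Y.left) n ∧ ∀ b,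
      ∃ s : Arrow (T.H Y Set.univ (2 * b) b) (T.H X S (2 * b) b), ∀ e,
        (T.H X S (2 * b) b).Unip e → ∃ e', (T.H Y Set.univ (2 * b) b).Unip e' ∧ s.g e' = e

/-- Each finitely generated field `K` is contained in the function field, of the same transcendence
degree, of a smooth projective variety `Y` (de Jong). -/
def Alterations (k : Type) [Field k] : Prop :=
  ∀ K : Fld k, FG K → ∃ Y : Sch k, SmProj Y ∧ DimLE (Set.univ : Set Y.left) (td K) ∧
    ∃ y, IsMax Set.univ y ∧ td (kappa Y y) = td K ∧ Nonempty (K →ₐ[k] kappa Y y)

/-- Known facts over a finite field `k`. -/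
structure IsKnown (T : Theory k Ω) : Prop where
  motivic : MotivicVanishing T
  top : FundamentalClasses T
  divisor : DivisorClasses T
  pure : Purity T
  resolved : Resolutions T
  alteration : Alterations k

/-- Tate's conjecture (for all codimensions), the semisimplicity of the eigenvalue one, and Beilinson's
conjecture (rational and numerical equivalence coincide, so that `CH_b(S) ⊗ ℚ_ℓ` injects into the
homology), for the locally closed subset `S` of `X`. -/
def TBS (T : Theory k Ω) (X : Sch k) (S : Set X.left) : Prop :=
  ∀ b : ℤ, (T.H X S (2 * b) b).Good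

/-- **Q1**: for every finitely generated field `K` over `k` and all `i`, `j` the invariant elements of
`H^i(F₀ V, ℚ_ℓ(j))`, `K = k(V)`, come from `CH^j(Spec K, 2 j - i) ⊗ ℚ_ℓ`. -/
def QOne (T : Theory k Ω) : Prop :=
  ∀ K : Fld k, FG K → ∀ (i j : ℤ) (e : (T.G K i j).E), (T.G K i j).frob e = e →
    e ∈ Set.range (T.G K i j).reg

/-- The group `H^i(F₀ V, ℚ_ℓ(j))`, `K = k(V)`, has no invariant elements besides zero. -/
def Van (T : Theory k Ω) (K : Fld k) (i j : ℤ) : Prop :=
  ∀ e : (T.G K i j).E, (T.G K i j).frob e = e → e = 0

/-- The theorem of Geisser and Jannsen: if Tate's and Beilinson's conjecture and semisimplicity hold for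
all smooth projective varieties over the finite field `k`, then the regulators are isomorphisms onto
the invariants for all varieties over `k`, in all degrees and for all twists (in particular Parshin's
conjecture is true). -/
def GeisserJannsen (T : Theory k Ω) : Prop :=
  (∀ Y : Sch k, SmProj Y → TBS T Y Set.univ) →
    ∀ X : Sch k, FT True X → ∀ S : Set X.left, IsLocallyClosed S → ∀ a b, (T.H X S a b).Good

/-- The formal properties and the known facts. -/
structure IsBasic (T : Theory k Ω) : Prop extends IsHomology T, IsGeneric T, IsCohomology T,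
  IsKnown T

/-- The formal properties and the known facts, among them the theorem of Geisser and Jannsen. -/
structure IsTheory (T : Theory k Ω) : Prop extends IsBasic T where
  geisser : GeisserJannsen T

end Pool.Agent.Y99.NF
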