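import Pool.Agent.Y101.Th.PairDefs

/-!
# Motivic and `ℓ`-adic homology of varieties and of function fields over a finite field: data
-/

set_option autoImplicit false

open CategoryTheory AlgebraicGeometry

namespace Pool.Agent.Y99.NF

open Pool.Agent.Y116.UV

/-- A motivic group `M` (with coefficients `Ω = ℚ_ℓ`), the corresponding `ℓ`-adic group `E` with the
operation of the Frobenius, and the regulator (cycle class map), whose values are invariant. -/
structure Node (Ω : Type) [Field Ω] where
  M : Type
  E : Type
  [mgrp : AddCommGroup M]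
  [mmod : Module Ω M]
  [egrp : AddCommGroup E]
  [emod : Module Ω E]
  frob : E →ₗ[Ω] E
  reg : M →ₗ[Ω] E
  inv : ∀ x, frob (reg x) = reg x

attribute [instance] Node.mgrp Node.mmod Node.egrp Node.emod

/-- Homomorphisms of the motivic and of the `ℓ`-adic groups, compatible with the regulators and with
the Frobenius. -/
structure Arrow {Ω : Type} [Field Ω] (A B : Node Ω) where
  f : A.M →ₗ[Ω] B.M
  g : A.E →ₗ[Ω] B.E
  comm : ∀ x, B.reg (f x) = g (A.reg x)
  frob : ∀ x, B.frob (g x) = g (A.frob x)

/-- A field which is an algebra over `k`. -/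
structure Fld (k : Type) [Field k] where
  carrier : Type
  [fld : Field carrier]
  [alg : Algebra k carrier]

attribute [instance] Fld.fld Fld.alg

instance {k : Type} [Field k] : CoeSort (Fld k) Type := ⟨Fld.carrier⟩

variable {k : Type} [Field k]

/-- The field `K` is finitely generated over `k`. -/
def FG (K : Fld k) : Prop := Algebra.EssFiniteType k K

/-- The transcendence degree over `k`. -/
noncomputable def td (K : Fld k) : ℕ := Cardinal.toNat (Algebra.trdeg k K)

/-- The residue field of the point `x` of the `k`-scheme `X`. -/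
noncomputable def kappa (X : Sch k) (x : X.left) : Fld k :=
  { carrier := X.left.residueField x
    alg := ((Spec.preimage (X.left.fromSpecResidueField x ≫ X.hom)).hom :
      k →+* X.left.residueField x).toAlgebra }

/-- The rational function field `K(t)`. -/
noncomputable def ratF (K : Fld k) : Fld k := ⟨RatFunc K⟩

/-- The residue field `K[t]/(p)`. -/
noncomputable def adj (K : Fld k) (p : Polynomial K) [Fact (Irreducible p)] : Fld k :=
  ⟨AdjoinRoot p⟩

/-- The rational function field `k(t_1, …, t_n)`. -/
noncomputable def rat (k : Type) [Field k] (n : ℕ) : Fld k :=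
  ⟨FractionRing (MvPolynomial (Fin n) k)⟩

/-- The inclusion of `K` into `K(t)`. -/
noncomputable def incl (K : Fld k) : K →ₐ[k] ratF K := IsScalarTower.toAlgHom k K (RatFunc K)

/-- Data over the field `k` (`Ω` is the field `ℚ_ℓ`).

* `H X S a b`: the homology of the locally closed subset `S` of the scheme `X` (with its reduced
  structure): the motivic homology `H_a(S, ℚ(b)) ⊗ ℚ_ℓ = CH_b(S, a - 2 b) ⊗ ℚ_ℓ` and the `ℓ`-adic
  Borel–Moore homology `H_a(S, ℚ_ℓ(b))` over the algebraic closure of `k`, twisted so that cycles of
  dimension `b` have classes in `H_{2b}(S, ℚ_ℓ(b))`. For `S` smooth of pure dimension `n` it is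
  `H^{2n-a}(S, ℚ_ℓ(n-b))`.
* `G K i j`: the cohomology of the field `K = k(V)`, `V` a variety over `k`:
  `CH^j(Spec K, 2 j - i) ⊗ ℚ_ℓ` and the direct limit `H^i(F₀ V, ℚ_ℓ(j))` of the groups
  `H^i(U, ℚ_ℓ(j))`, over the algebraic closure of `k`, for the open subsets `U` of `V`.
* push-forwards `push` (from `Z` closed in `S`), restrictions `res` (to `U` open in `S`), boundary maps
  `bd` of localisation sequences, passage `gen` to the generic point `x` of `S`, pull-backs `pull` for
  extensions of fields, and residue maps `residue` of the closed points of the affine line over `K`. -/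
structure Theory (k Ω : Type) [Field k] [Field Ω] where
  H : (X : Sch k) → Set X.left → ℤ → ℤ → Node Ω
  G : Fld k → ℤ → ℤ → Node Ω
  push : ∀ (X : Sch k) (Z S : Set X.left) (a b : ℤ), Arrow (H X Z a b) (H X S a b)
  res : ∀ (X : Sch k) (S U : Set X.left) (a b : ℤ), Arrow (H X S a b) (H X U a b)
  bd : ∀ (X : Sch k) (U Z : Set X.left) (a b : ℤ), Arrow (H X U (a + 1) b) (H X Z a b)
  gen : ∀ (X : Sch k) (S : Set X.left) (x : X.left) (a b i j : ℤ),
    Arrow (H X S a b) (G (kappa X x) i j)
  pull : ∀ {K L : Fld k} (_ : K →ₐ[k] L) (i j : ℤ), Arrow (G K i j) (G L i j)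
  residue : ∀ (K : Fld k) (p : Polynomial K) [Fact (Irreducible p)] (i j : ℤ),
    (G (ratF K) (i + 1) (j + 1)).E →ₗ[Ω] (G (adj K p) i j).E

variable {Ω : Type} [Field Ω]

/-- The element `e` is killed by a power of `frob - 1`. -/
def Node.Unip (N : Node Ω) (e : N.E) : Prop := ∃ n : ℕ, ((N.frob - 1) ^ n) e = 0

/-- The regulator is injective, its image is the space of invariants, and the eigenvalue one of the
Frobenius is semisimple. -/
def Node.Good (N : Node Ω) : Prop :=
  Function.Injective N.reg ∧ (∀ e, N.frob e = e → e ∈ Set.range N.reg) ∧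
    ∀ e, N.frob (N.frob e - e) = N.frob e - e → N.frob e = e

/-- The composition of two arrows is a third one. -/
def Comp {A B C : Node Ω} (s : Arrow A B) (t : Arrow B C) (u : Arrow A C) : Prop :=
  (∀ x, t.f (s.f x) = u.f x) ∧ ∀ x, t.g (s.g x) = u.g x

/-- Exactness for the motivic and the `ℓ`-adic groups. -/
def Exact {A B C : Node Ω} (s : Arrow A B) (t : Arrow B C) : Prop :=
  Function.Exact s.f t.f ∧ Function.Exact s.g t.g

/-- `Z` is closed in `S`. -/
def ClosedIn {X : Sch k} (Z S : Set X.left) : Prop := ∃ C, IsClosed C ∧ Z = S ∩ C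

/-- `U` is open in `S`. -/
def OpenIn {X : Sch k} (U S : Set X.left) : Prop := ∃ O, IsOpen O ∧ U = S ∩ O

/-- `S` is locally closed, `Z` is closed in `S` and `U` is the complement of `Z` in `S`. -/
structure Tri {X : Sch k} (Z S U : Set X.left) : Prop where
  lc : IsLocallyClosed S
  closed : ClosedIn Z S
  compl : U = S \ Z

/-- `x` is the generic point of an irreducible component of `S`. -/
def IsMax {X : Sch k} (S : Set X.left) (x : X.left) : Prop := x ∈ S ∧ ∀ y ∈ S, y ⤳ x → y = x

/-- The residue fields of the points of `S` have transcendence degree at most `n` over `k`, that is, the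
dimension of `S` is at most `n`. -/
def DimLE {X : Sch k} (S : Set X.left) (n : ℤ) : Prop := ∀ x ∈ S, (td (kappa X x) : ℤ) ≤ n

/-- The groups `H X S a b` and `G (kappa X x) i j` correspond: `i = 2 n - a` and `j = n - b` for the
transcendence degree `n` of the residue field of `x`. -/
def Idx (X : Sch k) (x : X.left) (a b i j : ℤ) : Prop :=
  a + i = 2 * td (kappa X x) ∧ b + j = td (kappa X x)

end Pool.Agent.Y99.NF
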