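import Pool.Agent.Y99.NF.Defs
import Pool.Agent.Y116.BS.Field

/-!
# Finitely generated fields as algebras over `k`
-/

set_option autoImplicit false

open Polynomial

namespace Pool.Agent.Y99.NF

variable {k : Type} [Field k]

lemma td_congr {K L : Fld k} (e : K ≃ₐ[k] L) : td K = td L := by
  unfold td
  rw [e.trdeg_eq]

lemma fg_congr {K L : Fld k} (e : K ≃ₐ[k] L) (h : FG K) : FG L := by
  have : Algebra.EssFiniteType k K := h
  exact (Algebra.EssFiniteType.iff_of_algEquiv e).mp this

lemma fg_rat (n : ℕ) : FG (rat k n) :=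
  (Algebra.EssFiniteType.comp k (MvPolynomial (Fin n) k) (FractionRing (MvPolynomial (Fin n) k)) :)

lemma fg_ratF {K : Fld k} (h : FG K) : FG (ratF K) := by
  have h1 : Algebra.EssFiniteType k K := h
  have h0 : Algebra.EssFiniteType K[X] (RatFunc K) :=
    Algebra.EssFiniteType.of_isLocalization _ (nonZeroDivisors K[X])
  have h2 : Algebra.EssFiniteType K (RatFunc K) := Algebra.EssFiniteType.comp K K[X] (RatFunc K)
  exact (Algebra.EssFiniteType.comp k K (RatFunc K) :)

lemma fg_adj {K : Fld k} (h : FG K) (p : K[X]) [Fact (Irreducible p)] : FG (adj K p) := by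
  have h1 : Algebra.EssFiniteType k K := h
  have h2 : Algebra.EssFiniteType K (AdjoinRoot p) := inferInstance
  exact (Algebra.EssFiniteType.comp k K (AdjoinRoot p) :)

lemma td_rat (n : ℕ) : td (rat k n) = n := by
  have h : Algebra.trdeg k (MvPolynomial (Fin n) k) +
      Algebra.trdeg (MvPolynomial (Fin n) k) (FractionRing (MvPolynomial (Fin n) k)) =
        Algebra.trdeg k (FractionRing (MvPolynomial (Fin n) k)) := trdeg_add_eq _ _
  have h2 : Algebra.trdeg (MvPolynomial (Fin n) k) (FractionRing (MvPolynomial (Fin n) k)) = 0 := by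
    have : Algebra.IsAlgebraic (MvPolynomial (Fin n) k) (FractionRing (MvPolynomial (Fin n) k)) :=
      IsLocalization.isAlgebraic _ (nonZeroDivisors (MvPolynomial (Fin n) k))
    exact trdeg_eq_zero
  rw [h2, add_zero, MvPolynomial.trdeg_of_isDomain] at h
  change Cardinal.toNat (Algebra.trdeg k (FractionRing (MvPolynomial (Fin n) k))) = n
  rw [← h]
  simp

lemma td_adj {K : Fld k} (p : K[X]) [Fact (Irreducible p)] : td (adj K p) = td K := by
  have h : Algebra.trdeg k K + Algebra.trdeg K (AdjoinRoot p) = Algebra.trdeg k (AdjoinRoot p) :=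
    trdeg_add_eq _ _
  have hp : Irreducible p := Fact.out
  have : Module.Finite K (AdjoinRoot p) := (AdjoinRoot.powerBasis hp.ne_zero).finite
  rw [trdeg_eq_zero (R := K) (A := AdjoinRoot p), add_zero] at h
  change Cardinal.toNat (Algebra.trdeg k (AdjoinRoot p)) = Cardinal.toNat (Algebra.trdeg k K)
  rw [h]

/-- homomorphisms of rational function fields -/
lemma ratF_map {K L : Fld k} (f : K →ₐ[k] L) : Nonempty (ratF K →ₐ[k] ratF L) := by
  let g : K[X] →ₐ[k] RatFunc L :=
    (IsScalarTower.toAlgHom k L[X] (RatFunc L)).comp (Polynomial.mapAlgHom f)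
  have hg : Function.Injective g :=
    (IsFractionRing.injective L[X] (RatFunc L)).comp (Polynomial.map_injective _ f.injective)
  exact ⟨(IsFractionRing.liftAlgHom (K := RatFunc K) hg : RatFunc K →ₐ[k] RatFunc L)⟩

/-- The fraction field of `A[X]` is the rational function field over the fraction field of `A`. -/
lemma frac_poly (A E : Type) [CommRing A] [IsDomain A] [Field E] [Algebra A E]
    [IsFractionRing A E] [Algebra k A] [Algebra k E] [IsScalarTower k A E] :
    Nonempty (FractionRing A[X] ≃ₐ[k] RatFunc E) := by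
  let _ : Algebra A[X] (RatFunc E) :=
    ((algebraMap E[X] (RatFunc E)).comp (Polynomial.mapRingHom (algebraMap A E))).toAlgebra
  have hmap : ∀ p : A[X], algebraMap A[X] (RatFunc E) p =
      algebraMap E[X] (RatFunc E) (p.map (algebraMap A E)) := fun p => rfl
  have hinj : Function.Injective (algebraMap A[X] (RatFunc E)) := by
    intro p q hpq
    rw [hmap, hmap] at hpq
    exact Polynomial.map_injective _ (IsFractionRing.injective A E)
      (IsFractionRing.injective E[X] (RatFunc E) hpq)
  have : FaithfulSMul A[X] (RatFunc E) := (faithfulSMul_iff_algebraMap_injective _ _).2 hinj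
  have hfrac : IsFractionRing A[X] (RatFunc E) := by
    refine IsFractionRing.of_field _ _ fun z => ?_
    obtain ⟨P, Q, hQ, rfl⟩ := IsFractionRing.div_surjective (A := E[X]) z
    obtain ⟨b, hbm, hb⟩ := IsLocalization.integerNormalization_spec (nonZeroDivisors A) P
    obtain ⟨c, hcm, hc⟩ := IsLocalization.integerNormalization_spec (nonZeroDivisors A) Q
    refine ⟨C c * IsLocalization.integerNormalization (nonZeroDivisors A) P,
      C b * IsLocalization.integerNormalization (nonZeroDivisors A) Q, ?_⟩
    have hb0 : algebraMap E[X] (RatFunc E) (C (algebraMap A E b)) ≠ 0 := by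
      rw [Ne, map_eq_zero_iff _ (IsFractionRing.injective E[X] (RatFunc E)), C_eq_zero,
        map_eq_zero_iff _ (IsFractionRing.injective A E)]
      exact nonZeroDivisors.ne_zero hbm
    have hc0 : algebraMap E[X] (RatFunc E) (C (algebraMap A E c)) ≠ 0 := by
      rw [Ne, map_eq_zero_iff _ (IsFractionRing.injective E[X] (RatFunc E)), C_eq_zero,
        map_eq_zero_iff _ (IsFractionRing.injective A E)]
      exact nonZeroDivisors.ne_zero hcm
    have hQ0 : algebraMap E[X] (RatFunc E) Q ≠ 0 := by
      rw [Ne, map_eq_zero_iff _ (IsFractionRing.injective E[X] (RatFunc E))]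
      exact nonZeroDivisors.ne_zero hQ
    have hb' : (IsLocalization.integerNormalization (nonZeroDivisors A) P).map (algebraMap A E) =
        C (algebraMap A E b) * P := by
      rw [hb, Algebra.smul_def]
      rfl
    have hc' : (IsLocalization.integerNormalization (nonZeroDivisors A) Q).map (algebraMap A E) =
        C (algebraMap A E c) * Q := by
      rw [hc, Algebra.smul_def]
      rfl
    rw [hmap, hmap, Polynomial.map_mul, Polynomial.map_mul, hb', hc', map_C, map_C, map_mul,
      map_mul, map_mul, map_mul]
    field_simp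
  have htow : IsScalarTower k A[X] (RatFunc E) := by
    refine IsScalarTower.of_algebraMap_eq fun r => ?_
    rw [hmap, IsScalarTower.algebraMap_apply k A A[X], Polynomial.algebraMap_apply,
      Polynomial.map_C, Algebra.algebraMap_self_apply, ← IsScalarTower.algebraMap_apply k A E,
      IsScalarTower.algebraMap_apply k E[X] (RatFunc E)]
    rfl
  exact ⟨(IsLocalization.algEquiv (nonZeroDivisors A[X]) (FractionRing A[X])
    (RatFunc E)).restrictScalars k⟩

lemma ratF_rat (n : ℕ) : Nonempty (ratF (rat k n) ≃ₐ[k] rat k (n + 1)) := by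
  obtain ⟨e2⟩ := frac_poly (k := k) (MvPolynomial (Fin n) k)
    (FractionRing (MvPolynomial (Fin n) k))
  have e3 : FractionRing (MvPolynomial (Fin (n + 1)) k) ≃ₐ[k]
      FractionRing (MvPolynomial (Fin n) k)[X] :=
    IsFractionRing.algEquivOfAlgEquiv (MvPolynomial.finSuccEquiv k n)
  exact ⟨(e3.trans e2).symm⟩

lemma rat_incl {m n : ℕ} (h : m ≤ n) : Nonempty (rat k m →ₐ[k] rat k n) := by
  induction n, h using Nat.le_induction with
  | base => exact ⟨AlgHom.id k _⟩
  | succ n _ ih =>
    obtain ⟨f⟩ := ih
    obtain ⟨e⟩ := ratF_rat (k := k) n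
    exact ⟨(e.toAlgHom.comp (incl (rat k n))).comp f⟩

/-- A finitely generated field over a perfect field `k` is `E[X] / (p)` for a rational function
field `E` over `k`. -/
lemma exists_adj [PerfectField k] {K : Fld k} (hK : FG K) : ∃ (E : Fld k) (p : E[X])
    (_ : Fact (Irreducible p)), Nonempty (rat k (td K) ≃ₐ[k] E) ∧ Nonempty (adj E p ≃ₐ[k] K) := by
  have : Algebra.EssFiniteType k K := hK
  obtain ⟨s, hs, hsep⟩ := exists_isTranscendenceBasis_and_isSeparable_of_perfectField k K
  have hfin : Algebra.EssFiniteType (IntermediateField.adjoin k (s : Set K)) K :=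
    Algebra.EssFiniteType.of_comp k _ K
  have hun : Algebra.FormallyUnramified (IntermediateField.adjoin k (s : Set K)) K :=
    Algebra.FormallyUnramified.of_isSeparable _ _
  have hfd : Module.Finite (IntermediateField.adjoin k (s : Set K)) K :=
    Algebra.FormallyUnramified.finite_of_free _ _
  obtain ⟨α, hα⟩ := Field.exists_primitive_element (IntermediateField.adjoin k (s : Set K)) K
  have hint : IsIntegral (IntermediateField.adjoin k (s : Set K)) α := .of_finite _ _
  have htd : td K = s.card := by
    unfold td
    rw [← hs.cardinalMk_eq_trdeg]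
    simp
  refine ⟨⟨IntermediateField.adjoin k (s : Set K)⟩,
    minpoly (IntermediateField.adjoin k (s : Set K)) α, ⟨minpoly.irreducible hint⟩, ?_, ?_⟩
  · rw [htd]
    have e1 := hs.1.aevalEquivField
    have e2 : IntermediateField.adjoin k (Set.range ((↑) : s → K)) ≃ₐ[k]
        IntermediateField.adjoin k (s : Set K) :=
      (IntermediateField.equivOfEq (by rw [Subtype.range_coe_subtype]; rfl))
    have e3 : FractionRing (MvPolynomial (Fin s.card) k) ≃ₐ[k] FractionRing (MvPolynomial s k) :=
      IsFractionRing.algEquivOfAlgEquiv (MvPolynomial.renameEquiv k s.equivFin.symm)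
    exact ⟨(e3.trans e1).trans e2⟩
  · have e1 := IntermediateField.adjoinRootEquivAdjoin
      (IntermediateField.adjoin k (s : Set K)) hint
    rw [hα] at e1
    exact ⟨(e1.trans IntermediateField.topEquiv).restrictScalars k⟩

end Pool.Agent.Y99.NF
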