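import Pool.Agent.Y99.NF.Defs

/-!
# Generic points and transcendence degrees for schemes of finite type over a field
-/

set_option autoImplicit false

open CategoryTheory AlgebraicGeometry

namespace Pool.Agent.Y99.NF

open Pool.Agent.Y116.UV

variable {k : Type} [Field k]

/-- The structure of an algebra over `k` on the local ring of `X` at `x`. -/
noncomputable def stalkHom (X : Sch k) (x : X.left) : k →+* X.left.presheaf.stalk x :=
  (Spec.preimage (X.left.fromSpecStalk x ≫ X.hom)).hom

lemma map_stalkHom (X : Sch k) (x : X.left) :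
    Spec.map (CommRingCat.ofHom (stalkHom X x)) = X.left.fromSpecStalk x ≫ X.hom := by
  unfold stalkHom
  rw [CommRingCat.ofHom_hom, Spec.map_preimage]

/-- The structure of an algebra over `k` on the residue field of `X` at `x`. -/
noncomputable def kapHom (X : Sch k) (x : X.left) : k →+* X.left.residueField x :=
  (Spec.preimage (X.left.fromSpecResidueField x ≫ X.hom)).hom

lemma algebraMap_kappa (X : Sch k) (x : X.left) (r : k) :
    algebraMap k (kappa X x) r = kapHom X x r := rfl

lemma map_kapHom (X : Sch k) (x : X.left) :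
    Spec.map (CommRingCat.ofHom (kapHom X x)) = X.left.fromSpecResidueField x ≫ X.hom := by
  unfold kapHom
  rw [CommRingCat.ofHom_hom, Spec.map_preimage]

lemma residue_stalkHom (X : Sch k) (x : X.left) :
    (X.left.residue x).hom.comp (stalkHom X x) = kapHom X x := by
  have h : CommRingCat.ofHom (stalkHom X x) ≫ X.left.residue x =
      CommRingCat.ofHom (kapHom X x) := by
    apply Spec.map_injective
    rw [Spec.map_comp, map_stalkHom, map_kapHom, ← Category.assoc]
    rfl
  exact congrArg CommRingCat.Hom.hom h

lemma specializes_stalkHom (X : Sch k) {x y : X.left} (h : y ⤳ x) :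
    (X.left.presheaf.stalkSpecializes h).hom.comp (stalkHom X x) = stalkHom X y := by
  have h : CommRingCat.ofHom (stalkHom X x) ≫ X.left.presheaf.stalkSpecializes h =
      CommRingCat.ofHom (stalkHom X y) := by
    apply Spec.map_injective
    rw [Spec.map_comp, map_stalkHom, map_stalkHom, ← Category.assoc,
      Scheme.SpecMap_stalkSpecializes_fromSpecStalk]
  exact congrArg CommRingCat.Hom.hom h

lemma noeth {X : Sch k} (hX : FT True X) : TopologicalSpace.NoetherianSpace X.left := by
  have := hX.locallyOfFiniteType
  have := hX.quasiCompact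
  have h1 : IsLocallyNoetherian X.left := LocallyOfFiniteType.isLocallyNoetherian X.hom
  have h2 : CompactSpace X.left := by
    rw [← isCompact_univ_iff]
    have := QuasiCompact.isCompact_preimage (f := X.hom) Set.univ isOpen_univ isCompact_univ
    simpa using this
  have h3 : IsNoetherian X.left := { h1 with }
  infer_instance

lemma fg_kappa {X : Sch k} (hX : FT True X) (x : X.left) : FG (kappa X x) := by
  have := hX.locallyOfFiniteType
  have h0 : stalkHom X x = (X.hom.stalkMap x).hom.comp
      (StructureSheaf.toStalk (CommRingCat.of k) (X.hom x)).hom := by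
    have h : CommRingCat.ofHom (stalkHom X x) =
        StructureSheaf.toStalk (CommRingCat.of k) (X.hom x) ≫ X.hom.stalkMap x := by
      apply Spec.map_injective
      rw [Spec.map_comp, map_stalkHom, ← Scheme.SpecMap_stalkMap_fromSpecStalk,
        AlgebraicGeometry.Spec.fromSpecStalk_eq']
      rfl
    exact congrArg CommRingCat.Hom.hom h
  have h1 : (stalkHom X x).EssFiniteType := by
    rw [h0]
    refine RingHom.EssFiniteType.comp ?_ (LocallyOfFiniteType.stalkMap X.hom x)
    have h2 : Algebra.EssFiniteType k
        ((Spec.structureSheaf (CommRingCat.of k)).presheaf.stalk (X.hom x)) :=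
      Algebra.EssFiniteType.of_isLocalization _ (Ideal.primeCompl (X.hom x).asIdeal)
    exact h2
  have h2 : (kapHom X x).EssFiniteType := by
    rw [← residue_stalkHom]
    exact h1.comp (RingHom.FiniteType.of_surjective _ (X.left.residue_surjective x)).essFiniteType
  exact h2

lemma exists_max {X : Sch k} {S : Set X.left} (hS : IsLocallyClosed S) {x : X.left} (hx : x ∈ S) :
    ∃ y, IsMax S y ∧ y ⤳ x := by
  have hT : IsIrreducible (Subtype.val '' irreducibleComponent (⟨x, hx⟩ : S)) :=
    (isIrreducible_irreducibleComponent).image _ continuous_subtype_val.continuousOn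
  obtain ⟨y, hy⟩ := QuasiSober.sober hT.closure isClosed_closure
  have hxy : y ⤳ x := by
    rw [specializes_iff_mem_closure, hy.def]
    exact subset_closure ⟨⟨x, hx⟩, mem_irreducibleComponent, rfl⟩
  obtain ⟨U, F, hU, hF, rfl⟩ := hS
  have hyF : y ∈ F := by
    have h1 : closure (Subtype.val '' irreducibleComponent (⟨x, hx⟩ : (U ∩ F : Set X.left))) ⊆ F :=
      closure_minimal (by rintro _ ⟨z, _, rfl⟩; exact z.2.2) hF
    exact h1 (hy.def ▸ subset_closure rfl)
  have hyU : y ∈ U := hxy.mem_open hU hx.1
  refine ⟨y, ⟨⟨hyU, hyF⟩, ?_⟩, hxy⟩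
  intro z hz hzy
  have h1 : IsPreirreducible (closure {(⟨z, hz⟩ : (U ∩ F : Set X.left))}) :=
    isPreirreducible_singleton.closure
  have h2 : irreducibleComponent (⟨x, hx⟩ : (U ∩ F : Set X.left)) ⊆ closure {⟨z, hz⟩} := by
    intro w hw
    rw [← specializes_iff_mem_closure, ← Topology.IsInducing.subtypeVal.specializes_iff]
    refine hzy.trans ?_
    rw [specializes_iff_mem_closure, hy.def]
    exact subset_closure ⟨w, hw, rfl⟩
  have h3 := eq_irreducibleComponent h1 h2
  have h4 : (⟨z, hz⟩ : (U ∩ F : Set X.left)) ∈ irreducibleComponent (⟨x, hx⟩ : (U ∩ F : Set X.left)) := by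
    rw [← h3]
    exact subset_closure rfl
  have h5 : y ⤳ z := by
    rw [specializes_iff_mem_closure, hy.def]
    exact subset_closure ⟨_, h4, rfl⟩
  exact (hzy.antisymm h5).eq

lemma trdeg_le {X : Sch k} {x y : X.left} (h : y ⤳ x) :
    Algebra.trdeg k (kappa X x) ≤ Algebra.trdeg k (kappa X y) := by
  let _ : Algebra k (X.left.presheaf.stalk x) := (stalkHom X x).toAlgebra
  let φ : X.left.presheaf.stalk x →ₐ[k] kappa X y :=
    { toRingHom := (X.left.residue y).hom.comp (X.left.presheaf.stalkSpecializes h).hom
      commutes' := fun r => by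
        change ((X.left.residue y).hom.comp ((X.left.presheaf.stalkSpecializes h).hom.comp
          (stalkHom X x))) r = kapHom X y r
        rw [specializes_stalkHom, residue_stalkHom] }
  let ρ : X.left.presheaf.stalk x →ₐ[k] kappa X x :=
    { toRingHom := (X.left.residue x).hom
      commutes' := fun r => by
        change ((X.left.residue x).hom.comp (stalkHom X x)) r = kapHom X x r
        rw [residue_stalkHom] }
  have hρ : Function.Surjective ρ := X.left.residue_surjective x
  have hk : RingHom.ker φ ≤ RingHom.ker ρ := by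
    have h1 : RingHom.ker φ ≠ ⊤ := RingHom.ker_ne_top _
    have h2 : RingHom.ker ρ = IsLocalRing.maximalIdeal (X.left.presheaf.stalk x) := by
      have : (RingHom.ker ρ).IsMaximal := RingHom.ker_isMaximal_of_surjective ρ hρ
      exact IsLocalRing.eq_maximalIdeal this
    rw [h2]
    exact IsLocalRing.le_maximalIdeal h1
  have h3 : Algebra.trdeg k (kappa X x) ≤ Algebra.trdeg k φ.range := by
    have hq : ∀ a b, φ a = φ b → ρ a = ρ b := by
      intro a b hab
      have : a - b ∈ RingHom.ker φ := by
        rw [RingHom.mem_ker, map_sub, hab, sub_self]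
      have := hk this
      rw [RingHom.mem_ker, map_sub, sub_eq_zero] at this
      exact this
    let ψ : (X.left.presheaf.stalk x ⧸ RingHom.ker φ) →ₐ[k] kappa X x :=
      Ideal.Quotient.liftₐ (RingHom.ker φ) ρ fun a ha => hk ha
    have h4 : Function.Surjective ψ := fun y => by
      obtain ⟨a, rfl⟩ := hρ y
      exact ⟨Ideal.Quotient.mk _ a, rfl⟩
    let e : (X.left.presheaf.stalk x ⧸ RingHom.ker φ) ≃ₐ[k] φ.range := Ideal.quotientKerEquivRange φ
    exact trdeg_le_of_surjective (ψ.comp e.symm.toAlgHom)
      (h4.comp e.symm.surjective)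
  exact h3.trans (trdeg_le_of_injective φ.range.val Subtype.val_injective)

lemma td_le {X : Sch k} (hX : FT True X) {x y : X.left} (h : y ⤳ x) :
    td (kappa X x) ≤ td (kappa X y) := by
  refine Cardinal.toNat_le_toNat (trdeg_le h) ?_
  have h1 : Algebra.EssFiniteType k (kappa X y) := fg_kappa hX y
  exact trdeg_lt_aleph0 k (kappa X y)

end Pool.Agent.Y99.NF
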