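import Pool.Agent.Y99.NF.Ax

/-!
# Linear algebra: the part on which the Frobenius is unipotent
-/

set_option autoImplicit false

open Filter

namespace Pool.Agent.Y99.NF

variable {Ω : Type} [Field Ω] {A B C : Node Ω}

lemma Arrow.pow (s : Arrow A B) (n : ℕ) (x : A.E) :
    ((B.frob - 1) ^ n) (s.g x) = s.g (((A.frob - 1) ^ n) x) := by
  induction n generalizing x with
  | zero => rfl
  | succ n ih =>
    rw [pow_succ, pow_succ, Module.End.mul_apply, Module.End.mul_apply, ← ih]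
    congr 1
    simp [s.frob]

lemma unip_map (s : Arrow A B) {x : A.E} (hx : A.Unip x) : B.Unip (s.g x) := by
  obtain ⟨n, hn⟩ := hx
  exact ⟨n, by rw [s.pow, hn, map_zero]⟩

lemma unip_of_inv {x : A.E} (hx : A.frob x = x) : A.Unip x := ⟨1, by simp [hx]⟩

lemma unip_le {x : A.E} {m n : ℕ} (hmn : m ≤ n) (h : ((A.frob - 1) ^ m) x = 0) :
    ((A.frob - 1) ^ n) x = 0 := by
  obtain ⟨l, rfl⟩ := Nat.exists_eq_add_of_le hmn
  rw [add_comm, pow_add, Module.End.mul_apply, h, map_zero]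

lemma unip_sub {x y : A.E} (hx : A.Unip x) (hy : A.Unip y) : A.Unip (x - y) := by
  obtain ⟨m, hm⟩ := hx
  obtain ⟨n, hn⟩ := hy
  exact ⟨max m n, by rw [map_sub, unip_le (le_max_left _ _) hm, unip_le (le_max_right _ _) hn,
    sub_zero]⟩

/-- Unipotent elements lift to unipotent elements. -/
lemma unip_lift [FiniteDimensional Ω A.E] (s : Arrow A B) {y : B.E} (hy : B.Unip y)
    (hx : ∃ x, s.g x = y) : ∃ x, A.Unip x ∧ s.g x = y := by
  obtain ⟨x, rfl⟩ := hx
  obtain ⟨m, hm⟩ := hy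
  set N : Module.End Ω A.E := A.frob - 1 with hN
  obtain ⟨n, hn, hmn⟩ := ((LinearMap.eventually_isCompl_ker_pow_range_pow N).and
    (eventually_ge_atTop m)).exists
  obtain ⟨x1, hx1, x2, hx2, rfl⟩ := Submodule.mem_sup.mp
    (hn.sup_eq_top ▸ Submodule.mem_top : x ∈ LinearMap.ker (N ^ n) ⊔ LinearMap.range (N ^ n))
  refine ⟨x1, ⟨n, hx1⟩, ?_⟩
  suffices h : s.g x2 = 0 by rw [map_add, h, add_zero]
  let K : Submodule Ω A.E := LinearMap.range (N ^ n) ⊓ LinearMap.ker s.g
  have hst : ∀ v ∈ K, (N ^ n) v ∈ K := by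
    rintro v ⟨hv1, hv2⟩
    refine ⟨⟨v, rfl⟩, ?_⟩
    have hv3 : s.g v = 0 := hv2
    change s.g ((N ^ n) v) = 0
    rw [hN, ← s.pow, hv3, map_zero]
  have hinj : ∀ v ∈ LinearMap.range (N ^ n), (N ^ n) v = 0 → v = 0 := fun v hv hv0 =>
    Submodule.disjoint_def.mp hn.disjoint v hv0 hv
  have h1 : Function.Injective ((N ^ n).restrict hst) := by
    rw [injective_iff_map_eq_zero]
    rintro ⟨v, hv⟩ hv0
    have := congrArg Subtype.val hv0
    exact Subtype.ext (hinj v hv.1 this)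
  have h2 := LinearMap.injective_iff_surjective.mp h1
  have h3 : (N ^ n) x2 ∈ K := by
    refine ⟨⟨x2, rfl⟩, ?_⟩
    have h4 := unip_le hmn hm
    rw [map_add, map_add, s.pow, s.pow] at h4
    have h5 : ((A.frob - 1) ^ n) x1 = 0 := hx1
    rw [h5, map_zero, zero_add] at h4
    exact h4
  obtain ⟨⟨v, hv⟩, hv'⟩ := h2 ⟨_, h3⟩
  have h5 : (N ^ n) (x2 - v) = 0 := by
    rw [map_sub, sub_eq_zero]
    exact (congrArg Subtype.val hv').symm
  have h6 := hinj _ (Submodule.sub_mem _ hx2 hv.1) h5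
  rw [sub_eq_zero] at h6
  rw [h6]
  exact hv.2

lemma unip_exact [FiniteDimensional Ω A.E] {s : Arrow A B} {t : Arrow B C} (h : Exact s t)
    {y : B.E} (hy : B.Unip y) (h0 : t.g y = 0) : ∃ x, A.Unip x ∧ s.g x = y :=
  unip_lift s hy ((h.2 y).mp h0)

lemma unip_zero (h : ∀ e, A.frob e = e → e = 0) {x : A.E} (hx : A.Unip x) : x = 0 := by
  obtain ⟨n, hn⟩ := hx
  induction n generalizing x with
  | zero => exact hn
  | succ n ih =>
    rw [pow_succ, Module.End.mul_apply] at hn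
    have h1 := ih hn
    apply h
    have h2 : A.frob x - x = 0 := h1
    exact sub_eq_zero.mp h2

lemma good_iff : A.Good ↔ Function.Injective A.reg ∧ ∀ e, A.Unip e → e ∈ Set.range A.reg := by
  constructor
  · rintro ⟨h1, h2, h3⟩
    refine ⟨h1, ?_⟩
    rintro e ⟨n, hn⟩
    apply h2
    induction n generalizing e with
    | zero =>
      have : e = 0 := hn
      rw [this, map_zero]
    | succ n ih =>
      rw [pow_succ, Module.End.mul_apply] at hn
      exact h3 e (ih _ hn)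
  · rintro ⟨h1, h2⟩
    refine ⟨h1, fun e he => h2 e (unip_of_inv he), fun e he => ?_⟩
    have : A.Unip e := ⟨2, by
      rw [pow_two, Module.End.mul_apply]
      change A.frob (A.frob e - e) - (A.frob e - e) = 0
      rw [he, sub_self]⟩
    obtain ⟨m, rfl⟩ := h2 e this
    exact A.inv m

end Pool.Agent.Y99.NF
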