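import Pool.Agent.Y99.NF.Geo
import Pool.Agent.Y116.UV.Geo

/-!
# Each finitely generated field is the function field of a variety
-/

set_option autoImplicit false

open CategoryTheory AlgebraicGeometry TopologicalSpace

namespace Pool.Agent.Y99.NF

open Pool.Agent.Y116.UV

variable {k : Type} [Field k]

lemma isFractionRing_bot (A : Type) [CommRing A] [IsDomain A] (x : PrimeSpectrum A)
    (hx : x.asIdeal = ⊥) : IsFractionRing A x.asIdeal.ResidueField := by
  have h1 : FaithfulSMul A x.asIdeal.ResidueField := by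
    rw [faithfulSMul_iff_algebraMap_injective, injective_iff_map_eq_zero]
    intro a ha
    rw [IsScalarTower.algebraMap_apply A (A ⧸ x.asIdeal) x.asIdeal.ResidueField,
      map_eq_zero_iff _ (IsFractionRing.injective (A ⧸ x.asIdeal) x.asIdeal.ResidueField)] at ha
    have := Ideal.Quotient.eq_zero_iff_mem.mp ha
    rw [hx] at this
    exact this
  refine IsFractionRing.of_field _ _ fun z => ?_
  obtain ⟨a, b, hb, rfl⟩ := IsFractionRing.div_surjective (A := A ⧸ x.asIdeal) z
  obtain ⟨a, rfl⟩ := Ideal.Quotient.mk_surjective a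
  obtain ⟨b, rfl⟩ := Ideal.Quotient.mk_surjective b
  exact ⟨a, b, rfl⟩

lemma residue_aff (A : Type) [CommRing A] [Algebra k A] (x : PrimeSpectrum A) :
    Nonempty (kappa (aff k A) x ≃ₐ[k] (⟨x.asIdeal.ResidueField⟩ : Fld k)) := by
  let y : Spec (CommRingCat.of A) := x
  let e := (Scheme.Spec.residueFieldIso (CommRingCat.of A) y)
  have h2 := Scheme.Spec.map_residueFieldIso_inv_eq_fromSpecResidueField (CommRingCat.of A) y
  have h3 : Spec.map (CommRingCat.ofHom (algebraMap k A) ≫
        CommRingCat.ofHom (algebraMap A y.asIdeal.ResidueField) ≫ e.inv) =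
      (Spec (CommRingCat.of A)).fromSpecResidueField y ≫
        Spec.map (CommRingCat.ofHom (algebraMap k A)) := by
    rw [Spec.map_comp, Spec.map_comp, ← h2]
  have h1 : CommRingCat.ofHom (kapHom (aff k A) y) =
      CommRingCat.ofHom (algebraMap k A) ≫
        CommRingCat.ofHom (algebraMap A y.asIdeal.ResidueField) ≫ e.inv :=
    Spec.map_injective ((map_kapHom (aff k A) y).trans h3.symm)
  refine ⟨AlgEquiv.ofRingEquiv (f := (e.commRingCatIsoToRingEquiv : _ ≃+* _)) fun r => ?_⟩
  have h4 := congrArg (fun f => (f ≫ e.hom).hom r) h1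
  simp only [Category.assoc, Iso.inv_hom_id, Category.comp_id] at h4
  exact h4

theorem model {K : Fld k} (hK : FG K) : ∃ X : Sch k, FT True X ∧ ∃ x, IsMax Set.univ x ∧
    Nonempty (kappa X x ≃ₐ[k] K) := by
  obtain ⟨S, M, hS, hM⟩ := (Algebra.essFiniteType_iff_exists_subalgebra (R := k) (S := K)).mp hK
  have hfr : IsFractionRing S K := by
    refine IsFractionRing.of_field _ _ fun z => ?_
    obtain ⟨⟨a, b⟩, h⟩ := IsLocalization.surj M z
    by_cases hb : (algebraMap S K b) = 0
    · exfalso
      have := IsLocalization.map_units K b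
      rw [hb] at this
      exact not_isUnit_zero this
    · exact ⟨a, b, by rw [eq_div_iff hb, h]⟩
  let x : PrimeSpectrum S := ⟨⊥, Ideal.isPrime_bot⟩
  refine ⟨aff k S, ft_aff True, x, ⟨trivial, ?_⟩, ?_⟩
  · intro y _ hy
    have h1 := (PrimeSpectrum.le_iff_specializes (show PrimeSpectrum S from y) x).mpr hy
    have h2 : (show PrimeSpectrum S from y).asIdeal = ⊥ := le_bot_iff.mp h1
    exact PrimeSpectrum.ext h2
  · have h1 : IsFractionRing S x.asIdeal.ResidueField := isFractionRing_bot S x rfl
    obtain ⟨e⟩ := residue_aff (k := k) S x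
    have e2 : x.asIdeal.ResidueField ≃ₐ[k] K :=
      (IsLocalization.algEquiv (nonZeroDivisors S) x.asIdeal.ResidueField K).restrictScalars k
    exact ⟨e.trans e2⟩

end Pool.Agent.Y99.NF
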