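import Pool.Agent.Y99.NF.Three
import Pool.Agent.Y99.NF.Model

/-!
# Tate's conjecture for function fields over finite fields: reduction to few bidegrees
-/

set_option autoImplicit false

open CategoryTheory AlgebraicGeometry TopologicalSpace Polynomial

namespace Pool.Agent.Y99.NF

open Pool.Agent.Y116.UV Pool.Agent.Y101.Th

variable {k Ω : Type} [Field k] [Field Ω] {T : Theory k Ω}

/-- `b`-cycles and generic points -/
theorem small_iff_lines (hT : IsHomology T) (hG : IsGeneric T) (hC : IsCohomology T)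
    (hK : IsKnown T) (b n : ℤ) : Small T b n ↔ ∀ K : Fld k, FG K → td K ≤ n → LineAt T K b := by
  constructor
  · intro h K hKf hd
    exact lines_of hT hG hC hK (Or.inl h) hKf hd
  · intro h Y hY hd
    exact good_of_lines hT hG hK hY.ft isOpen_univ.isLocallyClosed b
      fun y hy => h _ (fg_kappa hY.ft y) (hd y hy)

theorem all_iff_lines (hT : IsHomology T) (hG : IsGeneric T) (hC : IsCohomology T)
    (hK : IsKnown T) (b n : ℤ) :
    (∀ X : Sch k, FT True X → ∀ S : Set X.left, IsLocallyClosed S → DimLE S n →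
      (T.H X S (2 * b) b).Good) ↔ ∀ K : Fld k, FG K → td K ≤ n → LineAt T K b := by
  constructor
  · intro h
    refine (small_iff_lines hT hG hC hK b n).mp fun Y hY hd => ?_
    exact h Y hY.ft _ isOpen_univ.isLocallyClosed hd
  · intro h X hX S hS hd
    exact good_of_lines hT hG hK hX hS b fun y hy => h _ (fg_kappa hX y) (hd y hy)

theorem iso_iff_lines (hT : IsHomology T) (hG : IsGeneric T) (hC : IsCohomology T)
    (hK : IsKnown T) (b n : ℤ) : ClIso T b n ↔ ∀ K : Fld k, FG K → td K ≤ n → LineAt T K b := by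
  constructor
  · intro h K hKf hd
    exact lines_of hT hG hC hK (Or.inr h) hKf hd
  · intro h X hX S hS hd
    have := (all_iff_lines hT hG hC hK b n).mpr h X hX S hS hd
    exact ⟨this.1, this.2.1⟩

/-- all vanishing statements for `K` -/
lemma lines_iff {K : Fld k} : (∀ b, LineAt T K b) ↔
    (∀ r : ℤ, 1 ≤ r → Van T K (2 * r) r) ∧ ∀ r : ℤ, 2 ≤ r → Van T K (2 * r - 1) r := by
  constructor
  · intro h
    constructor
    · intro r hr
      have := (h (td K - r)).1 (by omega)
      rwa [show (td K : ℤ) - (td K - r) = r by ring] at this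
    · intro r hr
      have := (h (td K - r)).2 (by omega)
      rwa [show (td K : ℤ) - (td K - r) = r by ring] at this
  · rintro ⟨h1, h2⟩ b
    exact ⟨fun hr => h1 _ hr, fun hr => h2 _ hr⟩

/-- **Cycles of dimension at most `b` and rational function fields.** -/
theorem rat_cycles [PerfectField k] (hT : IsHomology T) (hG : IsGeneric T)
    (hC : IsCohomology T) (hK : IsKnown T) (b : ℕ) :
    (∀ c : ℤ, c ≤ b → ∀ K : Fld k, FG K → LineAt T K c) ↔
      (∀ r : ℕ, 1 ≤ r → r ≤ b → Van T (rat k (b + r + 1)) (2 * r + 1) (r + 1)) ∧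
      ∀ r : ℕ, 2 ≤ r → r ≤ b + 1 → Van T (rat k (b + r + 1)) (2 * r) (r + 1) := by
  constructor
  · intro h
    constructor
    · intro r hr _
      refine van_rat hC (by omega) fun K hKf hn => ?_
      have := (h (td K - r) (by omega) K hKf).1 (by omega)
      rwa [show (td K : ℤ) - (td K - r) = r by ring] at this
    · intro r hr _
      have h1 := van_rat (T := T) hC (i := 2 * r - 1) (j := r) (by omega) (n := b + r + 1)
        fun K hKf hn => by
          have := (h (td K - r) (by omega) K hKf).2 (by omega)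
          rwa [show (td K : ℤ) - (td K - r) = r by ring] at this
      rwa [show (2 * r - 1 + 1 : ℤ) = 2 * r by ring] at h1
  · rintro ⟨h1, h2⟩ c hc K hKf
    constructor
    · intro hr
      obtain ⟨r, hr'⟩ := Int.eq_ofNat_of_zero_le (show 0 ≤ (td K : ℤ) - c by omega)
      rw [hr'] at hr ⊢
      by_cases hrd : (r : ℤ) ≤ c
      · exact van_of_rat hT hG hC hK (n := b + r) (h1 r (by omega) (by omega)) hKf (by omega)
      · exact fun e _ => hC.vanish K hKf _ _ (by omega) e
    · intro hr
      obtain ⟨r, hr'⟩ := Int.eq_ofNat_of_zero_le (show 0 ≤ (td K : ℤ) - c by omega)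
      rw [hr'] at hr ⊢
      by_cases hrd : (r : ℤ) ≤ c + 1
      · refine van_of_rat hT hG hC hK (n := b + r) ?_ hKf (by omega)
        have := h2 r (by omega) (by omega)
        rwa [show (2 * r - 1 + 1 : ℤ) = 2 * r by ring]
      · exact fun e _ => hC.vanish K hKf _ _ (by omega) e

/-- **Varieties of dimension at most `d` and one rational function field.** -/
theorem rat_dim [PerfectField k] (hT : IsHomology T) (hG : IsGeneric T)
    (hC : IsCohomology T) (hK : IsKnown T) (d : ℕ) :
    (∀ b : ℤ, ∀ K : Fld k, FG K → (td K : ℤ) ≤ d → LineAt T K b) ↔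
      ∀ i : ℤ, 3 ≤ i → i ≤ d + 1 → Van T (rat k (d + 1)) i (i / 2 + 1) := by
  constructor
  · intro h i hi _
    have h' := fun K hKf hd => lines_iff.mp fun b => h b K hKf hd
    rcases Int.even_or_odd' i with ⟨r, rfl | rfl⟩
    · have h1 := van_rat (T := T) hC (i := 2 * r - 1) (j := r) (by omega) (n := d + 1)
        fun K hKf hn => (h' K hKf (by omega)).2 r (by omega)
      rw [show 2 * r - 1 + 1 = 2 * r by ring] at h1
      rwa [show 2 * r / 2 + 1 = r + 1 by omega]
    · have h1 := van_rat (T := T) hC (i := 2 * r) (j := r) (by omega) (n := d + 1)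
        fun K hKf hn => (h' K hKf (by omega)).1 r (by omega)
      rwa [show (2 * r + 1) / 2 + 1 = r + 1 by omega]
  · intro h b K hKf hd
    refine lines_iff.mpr ⟨?_, ?_⟩ b
    · intro r hr
      apply van_of_rat hT hG hC hK (n := d) _ hKf (by omega)
      by_cases hrd : 2 * r + 1 ≤ d + 1
      · have := h (2 * r + 1) (by omega) hrd
        rwa [show (2 * r + 1) / 2 + 1 = r + 1 by omega] at this
      · exact fun e _ => hC.vanish _ (fg_rat _) _ _ (by rw [td_rat]; push_cast; omega) e
    · intro r hr
      apply van_of_rat hT hG hC hK (n := d) _ hKf (by omega)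
      rw [show 2 * r - 1 + 1 = 2 * r by ring]
      by_cases hrd : 2 * r ≤ d + 1
      · have := h (2 * r) (by omega) hrd
        rwa [show 2 * r / 2 + 1 = r + 1 by omega] at this
      · exact fun e _ => hC.vanish _ (fg_rat _) _ _ (by rw [td_rat]; push_cast; omega) e

/-- Q1 implies the vanishing of the invariants in the bidegrees `i > j`. -/
lemma van_of_q (hK : IsKnown T) (h : QOne T) {K : Fld k} (hKf : FG K) {i j : ℤ} (hij : j < i) :
    Van T K i j := by
  intro e he
  obtain ⟨m, rfl⟩ := h K hKf i j e he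
  rw [hK.motivic K hKf i j hij m, map_zero]

/-- Q1 from the homology of all varieties. -/
lemma q_of_good (hG : IsGeneric T) (hC : IsCohomology T)
    (h : ∀ X : Sch k, FT True X → ∀ S : Set X.left, IsLocallyClosed S → ∀ a b,
      (T.H X S a b).Good) : QOne T := by
  intro K hKf i j e he
  obtain ⟨X, hX, x, hx, ⟨s⟩⟩ := model hKf
  have huniv : IsLocallyClosed (Set.univ : Set X.left) := isOpen_univ.isLocallyClosed
  have hi : Idx X x (2 * td (kappa X x) - i) (td (kappa X x) - j) i j := ⟨by ring, by ring⟩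
  have he' : (T.G (kappa X x) i j).frob ((T.pull s.symm.toAlgHom i j).g e) =
      (T.pull s.symm.toAlgHom i j).g e := by
    rw [(T.pull s.symm.toAlgHom i j).frob, he]
  obtain ⟨U, hU, hxU, z, hz, hze⟩ := exists_inv hG hX huniv hx hi he'
  obtain ⟨m, rfl⟩ := (h X hX U (hU.lc huniv) _ _).2.1 z hz
  set γ := T.gen X U x (2 * td (kappa X x) - i) (td (kappa X x) - j) i j
  refine ⟨(T.pull s.toAlgHom i j).f (γ.f m), ?_⟩
  rw [(T.pull s.toAlgHom i j).comm, γ.comm, hze, (hC.pull.2 s.symm.toAlgHom s.toAlgHom i j).2]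
  have h1 : s.toAlgHom.comp s.symm.toAlgHom = AlgHom.id k K := by
    ext x
    exact s.apply_symm_apply x
  rw [h1, hC.pull.1]

/-- descending to the smallest twist -/
lemma van_down_n (hT : IsHomology T) (hG : IsGeneric T) (hC : IsCohomology T) (hK : IsKnown T)
    {i j : ℤ} (n : ℕ) (h : ∀ K : Fld k, FG K → Van T K (i + n) (j + n)) (K : Fld k)
    (hKf : FG K) : Van T K i j := by
  induction n generalizing K with
  | zero => simpa using h K hKf
  | succ n ih =>
    refine ih (fun K hKf => ?_) K hKf
    have := h (ratF K) (fg_ratF hKf)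
    push_cast at this
    rw [← add_assoc, ← add_assoc] at this
    exact van_down hT hG hC hK hKf this

lemma lines_of_line (hT : IsHomology T) (hG : IsGeneric T) (hC : IsCohomology T)
    (hK : IsKnown T) (h : ∀ K : Fld k, FG K → ∀ r : ℤ, 2 ≤ r → Van T K (2 * r - 1) r)
    (K : Fld k) (hKf : FG K) (b : ℤ) : LineAt T K b := by
  refine lines_iff.mpr ⟨fun r hr => ?_, h K hKf⟩ b
  have h1 := h (ratF K) (fg_ratF hKf) (r + 1) (by omega)
  rw [show 2 * (r + 1) - 1 = 2 * r + 1 by ring] at h1
  exact van_down hT hG hC hK hKf h1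

/-- one twist for each difference of the two degrees -/
lemma line_of_choice (hT : IsHomology T) (hG : IsGeneric T) (hC : IsCohomology T)
    (hK : IsKnown T) {j : ℤ → ℤ} (hj : ∀ c, c + 1 ≤ j c)
    (h : ∀ c, 1 ≤ c → ∀ K : Fld k, FG K → Van T K (j c + c) (j c)) :
    ∀ K : Fld k, FG K → ∀ r : ℤ, 2 ≤ r → Van T K (2 * r - 1) r := by
  intro K hKf r hr
  obtain ⟨n, hn⟩ := Int.eq_ofNat_of_zero_le (show 0 ≤ j (r - 1) - r by linarith [hj (r - 1)])
  refine van_down_n hT hG hC hK n (fun K hKf => ?_) K hKf
  have h1 := h (r - 1) (by omega) K hKf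
  have h2 : j (r - 1) = r + n := by omega
  rw [h2] at h1
  rwa [show 2 * r - 1 + (n : ℤ) = r + n + (r - 1) by ring]

theorem q_iff_smproj (hT : IsTheory T) :
    QOne T ↔ ∀ Y : Sch k, SmProj Y → TBS T Y Set.univ := by
  have hH := hT.toIsHomology
  have hG := hT.toIsGeneric
  have hC := hT.toIsCohomology
  have hK := hT.toIsKnown
  constructor
  · intro h Y hY b
    refine good_of_lines hH hG hK hY.ft isOpen_univ.isLocallyClosed b fun y _ => ?_
    have hf := fg_kappa hY.ft y
    exact ⟨fun _ => van_of_q hK h hf (by omega), fun _ => van_of_q hK h hf (by omega)⟩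
  · intro h
    exact q_of_good hG hC (hT.geisser h)

theorem q_iff_choice (hT : IsTheory T) {j : ℤ → ℤ} (hj : ∀ c, c + 1 ≤ j c) :
    QOne T ↔ ∀ c, 1 ≤ c → ∀ K : Fld k, FG K → Van T K (j c + c) (j c) := by
  have hH := hT.toIsHomology
  have hG := hT.toIsGeneric
  have hC := hT.toIsCohomology
  have hK := hT.toIsKnown
  constructor
  · intro h c hc K hKf
    exact van_of_q hK h hKf (by omega)
  · intro h
    refine (q_iff_smproj hT).mpr fun Y hY b => ?_
    exact good_of_lines hH hG hK hY.ft isOpen_univ.isLocallyClosed b fun y _ =>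
      lines_of_line hH hG hC hK (line_of_choice hH hG hC hK hj h) _ (fg_kappa hY.ft y) b

theorem q_iff_rat [PerfectField k] (hT : IsTheory T) {j : ℤ → ℤ} (hj : ∀ c, c + 2 ≤ j c) :
    QOne T ↔ ∀ c, 1 ≤ c → ∀ n : ℕ, Van T (rat k n) (j c + c) (j c) := by
  have hH := hT.toIsHomology
  have hG := hT.toIsGeneric
  have hC := hT.toIsCohomology
  have hK := hT.toIsKnown
  constructor
  · intro h c hc n
    exact van_of_q hK h (fg_rat n) (by omega)
  · intro h
    refine (q_iff_choice hT (j := fun c => j c - 1) (fun c => by linarith [hj c])).mpr ?_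
    intro c hc K hKf
    refine van_of_rat hH hG hC hK (n := td K) ?_ hKf le_rfl
    have h1 := h c hc (td K + 1)
    rwa [show j c - 1 + c + 1 = j c + c by ring, show j c - 1 + 1 = j c by ring]

/-- Q1 for the varieties of dimension at most `d` implies the conjectures of Tate and Beilinson and
semisimplicity for them. -/
theorem good_of_q_dim (hT : IsBasic T) (d : ℤ)
    (h : ∀ K : Fld k, FG K → td K ≤ d → ∀ (i j : ℤ) (e : (T.G K i j).E),
      (T.G K i j).frob e = e → e ∈ Set.range (T.G K i j).reg)
    (X : Sch k) (hX : FT True X) (S : Set X.left) (hS : IsLocallyClosed S) (hd : DimLE S d) :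
    TBS T X S := by
  intro b
  have hv : ∀ y ∈ S, ∀ i j : ℤ, j < i → Van T (kappa X y) i j := by
    intro y hy i j hij e he
    obtain ⟨m, rfl⟩ := h _ (fg_kappa hX y) (hd y hy) i j e he
    rw [hT.motivic _ (fg_kappa hX y) i j hij m, map_zero]
  exact good_of_lines hT.toIsHomology hT.toIsGeneric hT.toIsKnown hX hS b fun y hy =>
    ⟨fun _ => hv y hy _ _ (by omega), fun _ => hv y hy _ _ (by omega)⟩

/-- The cycles of dimension `b` are controlled by the varieties of dimension `2 b + 1`. -/
theorem line_large (hC : IsCohomology T) {b : ℤ} {K : Fld k} (hK : FG K)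
    (h : 2 * b + 1 < td K) : LineAt T K b :=
  ⟨fun _ e _ => hC.vanish K hK _ _ (by omega) e, fun _ e _ => hC.vanish K hK _ _ (by omega) e⟩

theorem iso_bound (hT : IsBasic T) {b : ℤ} (h : ClIso T b (2 * b + 1)) (n : ℤ) :
    ClIso T b n := by
  have hH := hT.toIsHomology
  have hG := hT.toIsGeneric
  have hC := hT.toIsCohomology
  have hK := hT.toIsKnown
  rw [iso_iff_lines hH hG hC hK] at h ⊢
  intro K hKf _
  by_cases hd : (td K : ℤ) ≤ 2 * b + 1
  · exact h K hKf hd
  · exact line_large hC hKf (by omega)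

end Pool.Agent.Y99.NF
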