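import Pool.Agent.Y99.NF.Geo
import Pool.Agent.Y99.NF.Ax

/-!
# Noetherian induction: classes which vanish at the generic points of dimension `≥ c`
-/

set_option autoImplicit false

open CategoryTheory AlgebraicGeometry TopologicalSpace

namespace Pool.Agent.Y99.NF

open Pool.Agent.Y116.UV

variable {k : Type} [Field k] {X : Sch k}

lemma ClosedIn.subset {Z S : Set X.left} (h : ClosedIn Z S) : Z ⊆ S := by
  obtain ⟨C, _, rfl⟩ := h
  exact Set.inter_subset_left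

lemma OpenIn.subset {Z S : Set X.left} (h : OpenIn Z S) : Z ⊆ S := by
  obtain ⟨C, _, rfl⟩ := h
  exact Set.inter_subset_left

lemma ClosedIn.lc {Z S : Set X.left} (h : ClosedIn Z S) (hS : IsLocallyClosed S) :
    IsLocallyClosed Z := by
  obtain ⟨C, hC, rfl⟩ := h
  exact hS.inter hC.isLocallyClosed

lemma OpenIn.lc {Z S : Set X.left} (h : OpenIn Z S) (hS : IsLocallyClosed S) :
    IsLocallyClosed Z := by
  obtain ⟨C, hC, rfl⟩ := h
  exact hS.inter hC.isLocallyClosed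

lemma ClosedIn.trans {Z Z' S : Set X.left} (h : ClosedIn Z Z') (h' : ClosedIn Z' S) :
    ClosedIn Z S := by
  obtain ⟨C, hC, rfl⟩ := h
  obtain ⟨C', hC', rfl⟩ := h'
  exact ⟨C' ∩ C, hC'.inter hC, Set.inter_assoc _ _ _⟩

lemma OpenIn.trans {Z Z' S : Set X.left} (h : OpenIn Z Z') (h' : OpenIn Z' S) : OpenIn Z S := by
  obtain ⟨C, hC, rfl⟩ := h
  obtain ⟨C', hC', rfl⟩ := h'
  exact ⟨C' ∩ C, hC'.inter hC, Set.inter_assoc _ _ _⟩

lemma ClosedIn.refl (S : Set X.left) : ClosedIn S S := ⟨Set.univ, isClosed_univ, by simp⟩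

lemma tri_open {U S : Set X.left} (hS : IsLocallyClosed S) (h : OpenIn U S) :
    Tri (S \ U) S U := by
  refine ⟨hS, ?_, ?_⟩
  · obtain ⟨O, hO, rfl⟩ := h
    refine ⟨Oᶜ, hO.isClosed_compl, ?_⟩
    ext x
    simp only [Set.mem_sdiff, Set.mem_inter_iff, Set.mem_compl_iff]
    tauto
  · rw [Set.sdiff_sdiff_right_self, Set.inter_eq_self_of_subset_right h.subset]

lemma IsMax.mono {U S : Set X.left} {x : X.left} (h : IsMax S x) (hU : U ⊆ S) (hx : x ∈ U) :
    IsMax U x := ⟨hx, fun y hy => h.2 y (hU hy)⟩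

theorem niveau (hX : FT True X) {A : Set X.left → Type} [∀ S, Zero (A S)]
    (push : ∀ Z S, A Z → A S) (res : ∀ S U, A S → A U) (P : ∀ S, A S → Prop) (c : ℤ)
    (hid : ∀ S, IsLocallyClosed S → ∀ x, push S S x = x)
    (hpush : ∀ Z Z' S, IsLocallyClosed S → ClosedIn Z Z' → ClosedIn Z' S → ∀ x,
      push Z' S (push Z Z' x) = push Z S x)
    (hex : ∀ Z S U, Tri Z S U → ∀ x, P S x → res S U x = 0 → ∃ z, P Z z ∧ push Z S z = x)
    (hV : ∀ S, IsLocallyClosed S → ∀ y, IsMax S y → c ≤ td (kappa X y) → ∀ x, P S x →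
      ∃ U, OpenIn U S ∧ y ∈ U ∧ res S U x = 0)
    (S : Set X.left) (hS : IsLocallyClosed S) (x : A S) (hx : P S x) :
    ∃ Z, ClosedIn Z S ∧ DimLE Z (c - 1) ∧ ∃ z, P Z z ∧ push Z S z = x := by
  have := noeth hX
  let F : Set (Closeds X.left) := {C | ∃ Z : Set X.left, Z = S ∩ C ∧ ∃ z, P Z z ∧ push Z S z = x}
  have hF : F.Nonempty := ⟨⊤, S, by simp, x, hx, hid S hS x⟩
  obtain ⟨C, ⟨Z, hZ, z, hz, hzx⟩, hmin⟩ := (wellFounded_lt (α := Closeds X.left)).has_min F hF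
  have hcl : ClosedIn Z S := ⟨C, C.isClosed, hZ⟩
  refine ⟨Z, hcl, ?_, z, hz, hzx⟩
  intro y hy
  by_contra hcon
  obtain ⟨η, hη, hηy⟩ := exists_max (hcl.lc hS) hy
  have h1 := td_le hX hηy
  obtain ⟨U, hU, hηU, h0⟩ := hV Z (hcl.lc hS) η hη (by omega) z hz
  have ht := tri_open (hcl.lc hS) hU
  obtain ⟨z', hz', rfl⟩ := hex _ _ _ ht z hz h0
  have hzcl : ClosedIn (Z \ U) S := ht.closed.trans hcl
  rw [hpush _ _ _ hS ht.closed hcl] at hzx
  obtain ⟨O, hO, hUO⟩ := hU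
  refine hmin ⟨C ∩ Oᶜ, C.isClosed.inter hO.isClosed_compl⟩ ⟨Z \ U, ?_, z', hz', hzx⟩ ?_
  · rw [hUO, hZ]
    ext w
    simp only [Set.mem_sdiff, Set.mem_inter_iff, Set.mem_compl_iff, Closeds.coe_mk]
    tauto
  · refine lt_of_le_of_ne (fun w hw => hw.1) ?_
    intro heq
    have h2 : η ∈ (C : Set X.left) := by
      have := hη.1
      rw [hZ] at this
      exact this.2
    rw [← heq] at h2
    have h3 : η ∈ O := by
      rw [hUO] at hηU
      exact hηU.2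
    exact h2.2 h3

end Pool.Agent.Y99.NF
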