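import Pool.Agent.Y99.NF.Niv
import Pool.Agent.Y99.NF.Lin

/-!
# From the vanishing at the generic points to the conjectures of Tate and Beilinson
-/

set_option autoImplicit false

open CategoryTheory AlgebraicGeometry TopologicalSpace

namespace Pool.Agent.Y99.NF

open Pool.Agent.Y116.UV

variable {k Ω : Type} [Field k] [Field Ω] {T : Theory k Ω} {X : Sch k}

/-- The vanishing of the invariants in the bidegrees `(2 r, r)`, if `r ≥ 1`, and `(2 r - 1, r)`, if
`r ≥ 2`, where `r + b` is the transcendence degree of `K`. -/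
def LineAt (T : Theory k Ω) (K : Fld k) (b : ℤ) : Prop :=
  (1 ≤ td K - b → Van T K (2 * (td K - b)) (td K - b)) ∧
    (2 ≤ td K - b → Van T K (2 * (td K - b) - 1) (td K - b))

lemma lc_res (hT : IsHomology T) (hX : FT True X) {Z S U : Set X.left} (ht : Tri Z S U) (a b : ℤ)
    {x : (T.H X S a b).E} (hx : (T.H X S a b).Unip x) (h0 : (T.res X S U a b).g x = 0) :
    ∃ z, (T.H X Z a b).Unip z ∧ (T.push X Z S a b).g z = x := by
  have := hT.finite X hX Z (ht.closed.lc ht.lc) a b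
  exact unip_exact (hT.exact X hX Z S U ht a b).1 hx h0

/-- support of classes in even degrees -/
lemma supp_even (hT : IsHomology T) (hG : IsGeneric T) (hX : FT True X) {S : Set X.left}
    (hS : IsLocallyClosed S) (b : ℤ) (hL : ∀ y ∈ S, LineAt T (kappa X y) b)
    {x : (T.H X S (2 * b) b).E} (hx : (T.H X S (2 * b) b).Unip x) :
    ∃ Z, ClosedIn Z S ∧ DimLE Z b ∧ ∃ z, (T.H X Z (2 * b) b).Unip z ∧
      (T.push X Z S (2 * b) b).g z = x := by
  obtain ⟨Z, hZ, hd, z, hz, hzx⟩ := niveau hX (A := fun S => (T.H X S (2 * b) b).E)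
    (fun Z S => (T.push X Z S (2 * b) b).g) (fun S U => (T.res X S U (2 * b) b).g)
    (fun S x => (T.H X S (2 * b) b).Unip x ∧ ∀ y ∈ S, LineAt T (kappa X y) b) (b + 1)
    (fun S hS => (hT.push_self X hX S hS _ _).2)
    (fun Z Z' S hS h h' => (hT.push_push X hX Z Z' S hS h h' _ _).2)
    (fun Z S U ht x hx h0 => by
      obtain ⟨z, hz, hzx⟩ := lc_res hT hX ht _ _ hx.1 h0
      exact ⟨z, ⟨hz, fun y hy => hx.2 y (ht.closed.subset hy)⟩, hzx⟩)
    (fun S hS y hy hc x hx => by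
      have hi : Idx X y (2 * b) b (2 * (td (kappa X y) - b)) (td (kappa X y) - b) :=
        ⟨by ring, by ring⟩
      refine (hG.gen_zero X hX S hS y hy _ _ _ _ hi).2 x ?_
      exact unip_zero ((hx.2 y hy.1).1 (by omega)) (unip_map _ hx.1))
    S hS x ⟨hx, hL⟩
  exact ⟨Z, hZ, by simpa using hd, z, hz.1, hzx⟩

/-- support of classes in odd degrees -/
lemma supp_odd (hT : IsHomology T) (hG : IsGeneric T) (hX : FT True X) {S : Set X.left}
    (hS : IsLocallyClosed S) (b : ℤ) (hL : ∀ y ∈ S, LineAt T (kappa X y) b)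
    {x : (T.H X S (2 * b + 1) b).E} (hx : (T.H X S (2 * b + 1) b).Unip x) :
    ∃ Z, ClosedIn Z S ∧ DimLE Z (b + 1) ∧ ∃ z, (T.H X Z (2 * b + 1) b).Unip z ∧
      (T.push X Z S (2 * b + 1) b).g z = x := by
  obtain ⟨Z, hZ, hd, z, hz, hzx⟩ := niveau hX (A := fun S => (T.H X S (2 * b + 1) b).E)
    (fun Z S => (T.push X Z S (2 * b + 1) b).g) (fun S U => (T.res X S U (2 * b + 1) b).g)
    (fun S x => (T.H X S (2 * b + 1) b).Unip x ∧ ∀ y ∈ S, LineAt T (kappa X y) b) (b + 2)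
    (fun S hS => (hT.push_self X hX S hS _ _).2)
    (fun Z Z' S hS h h' => (hT.push_push X hX Z Z' S hS h h' _ _).2)
    (fun Z S U ht x hx h0 => by
      obtain ⟨z, hz, hzx⟩ := lc_res hT hX ht _ _ hx.1 h0
      exact ⟨z, ⟨hz, fun y hy => hx.2 y (ht.closed.subset hy)⟩, hzx⟩)
    (fun S hS y hy hc x hx => by
      have hi : Idx X y (2 * b + 1) b (2 * (td (kappa X y) - b) - 1) (td (kappa X y) - b) :=
        ⟨by ring, by ring⟩
      refine (hG.gen_zero X hX S hS y hy _ _ _ _ hi).2 x ?_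
      exact unip_zero ((hx.2 y hy.1).2 (by omega)) (unip_map _ hx.1))
    S hS x ⟨hx, hL⟩
  exact ⟨Z, hZ, by convert hd using 1; ring, z, hz.1, hzx⟩

/-- support of cycles -/
lemma supp_cyc (hT : IsHomology T) (hG : IsGeneric T) (hK : IsKnown T) (hX : FT True X)
    {S : Set X.left} (hS : IsLocallyClosed S) (b : ℤ) (x : (T.H X S (2 * b) b).M) :
    ∃ Z, ClosedIn Z S ∧ DimLE Z b ∧ ∃ z, (T.push X Z S (2 * b) b).f z = x := by
  obtain ⟨Z, hZ, hd, z, _, hzx⟩ := niveau hX (A := fun S => (T.H X S (2 * b) b).M)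
    (fun Z S => (T.push X Z S (2 * b) b).f) (fun S U => (T.res X S U (2 * b) b).f)
    (fun S x => True) (b + 1)
    (fun S hS => (hT.push_self X hX S hS _ _).1)
    (fun Z Z' S hS h h' => (hT.push_push X hX Z Z' S hS h h' _ _).1)
    (fun Z S U ht x _ h0 => by
      obtain ⟨z, hz⟩ := ((hT.exact X hX Z S U ht _ _).1.1 x).mp h0
      exact ⟨z, trivial, hz⟩)
    (fun S hS y hy hc x _ => by
      have hi : Idx X y (2 * b) b (2 * (td (kappa X y) - b)) (td (kappa X y) - b) :=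
        ⟨by ring, by ring⟩
      refine (hG.gen_zero X hX S hS y hy _ _ _ _ hi).1 x ?_
      exact hK.motivic _ (fg_kappa hX y) _ _ (by omega) _)
    S hS x trivial
  exact ⟨Z, hZ, by simpa using hd, z, hzx⟩

/-- **From the generic points to cycles.** -/
theorem good_of_lines (hT : IsHomology T) (hG : IsGeneric T) (hK : IsKnown T) (hX : FT True X)
    {S : Set X.left} (hS : IsLocallyClosed S) (b : ℤ) (hL : ∀ y ∈ S, LineAt T (kappa X y) b) :
    (T.H X S (2 * b) b).Good := by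
  rw [good_iff]
  constructor
  · rw [injective_iff_map_eq_zero]
    intro m hm
    obtain ⟨Z, hZ, hZd, m', rfl⟩ := supp_cyc hT hG hK hX hS b m
    have hZlc := hZ.lc hS
    obtain ⟨C, hC, hZC⟩ := hZ
    have htri : Tri Z S (S \ Z) := ⟨hS, ⟨C, hC, hZC⟩, rfl⟩
    have hU : OpenIn (S \ Z) S := by
      refine ⟨Cᶜ, hC.isOpen_compl, ?_⟩
      rw [hZC]
      ext x
      simp only [Set.mem_sdiff, Set.mem_inter_iff, Set.mem_compl_iff]
      tauto
    have hUlc := hU.lc hS
    -- the class of `m'` is a boundary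
    have h1 : (T.push X Z S (2 * b) b).g ((T.H X Z (2 * b) b).reg m') = 0 := by
      rw [← (T.push X Z S (2 * b) b).comm]
      exact hm
    obtain ⟨β, hβ⟩ := ((hT.exact X hX Z S _ htri (2 * b) b).2.2.2 _).mp h1
    have := hT.finite X hX _ hUlc (2 * b + 1) b
    obtain ⟨β, hβu, hβ⟩ := unip_lift (T.bd X (S \ Z) Z (2 * b) b)
      (unip_of_inv ((T.H X Z (2 * b) b).inv m')) ⟨β, hβ⟩
    obtain ⟨Z', hZ', hZ'd, β', _, rfl⟩ := supp_odd hT hG hX hUlc b
      (fun y hy => hL y (hU.subset hy)) hβu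
    obtain ⟨C', hC', hZC'⟩ := hZ'
    have hbd := (hT.bd_push X hX Z S _ Z' htri ⟨C', hC', hZC'⟩ (2 * b) b).2 β'
    rw [hbd] at hβ
    have hW : ClosedIn (Z ∪ Z') S := by
      refine ⟨C ∪ C', hC.union hC', ?_⟩
      rw [hZC', hZC]
      ext x
      simp only [Set.mem_sdiff, Set.mem_inter_iff, Set.mem_union]
      tauto
    have hWlc := hW.lc hS
    have htri' : Tri Z (Z ∪ Z') Z' := by
      refine ⟨hWlc, ⟨C, hC, ?_⟩, ?_⟩
      · rw [hZC', hZC]
        ext x
        simp only [Set.mem_sdiff, Set.mem_inter_iff, Set.mem_union]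
        tauto
      · rw [hZC']
        ext x
        simp only [Set.mem_sdiff, Set.mem_inter_iff, Set.mem_union]
        tauto
    have h2 : (T.push X Z (Z ∪ Z') (2 * b) b).g ((T.H X Z (2 * b) b).reg m') = 0 :=
      ((hT.exact X hX Z _ Z' htri' (2 * b) b).2.2.2 _).mpr ⟨β', hβ⟩
    rw [← (T.push X Z (Z ∪ Z') (2 * b) b).comm] at h2
    have hWd : DimLE (Z ∪ Z') (b + 1) := by
      rintro y (hy | hy)
      · have := hZd y hy
        omega
      · exact hZ'd y hy
    have h3 : (T.push X Z (Z ∪ Z') (2 * b) b).f m' = 0 :=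
      hK.divisor X hX _ hWlc b hWd (h2.trans (map_zero _).symm)
    rw [← (hT.push_push X hX Z (Z ∪ Z') S hS htri'.closed hW (2 * b) b).1 m', h3, map_zero]
  · intro e he
    obtain ⟨Z, hZ, hZd, z, hz, rfl⟩ := supp_even hT hG hX hS b hL he
    obtain ⟨m, rfl⟩ := hK.top X hX Z (hZ.lc hS) b hZd z hz
    exact ⟨_, (T.push X Z S (2 * b) b).comm m⟩

end Pool.Agent.Y99.NF
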