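import Pool.Agent.Y99.NF.Two
import Pool.Agent.Y99.NF.Fields

/-!
# Rational function fields
-/

set_option autoImplicit false

open CategoryTheory AlgebraicGeometry TopologicalSpace Polynomial

namespace Pool.Agent.Y99.NF

open Pool.Agent.Y116.UV Pool.Agent.Y101.Th

variable {k Ω : Type} [Field k] [Field Ω] {T : Theory k Ω}

/-- Each element of the cohomology of a field lies in a finite-dimensional stable subspace. -/
lemma fin_sub (hT : IsHomology T) (hG : IsGeneric T) (hC : IsCohomology T) (hK : IsKnown T)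
    {K : Fld k} (hKf : FG K) (i j : ℤ) (x : (T.G K i j).E) :
    ∃ B : Submodule Ω (T.G K i j).E, FiniteDimensional Ω B ∧ x ∈ B ∧
      ∀ y ∈ B, (T.G K i j).frob y ∈ B := by
  obtain ⟨Y, hY, hYd, y, hy, hyd, ⟨f⟩⟩ := hK.alteration K hKf
  have huniv : IsLocallyClosed (Set.univ : Set Y.left) := isOpen_univ.isLocallyClosed
  have hi : Idx Y y (2 * td (kappa Y y) - i) (td (kappa Y y) - j) i j := ⟨by ring, by ring⟩
  obtain ⟨U, hU, hyU, z, hz⟩ := hG.gen_onto Y hY.ft _ huniv y hy _ _ _ _ hi ((T.pull f i j).g x)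
  have := hT.finite Y hY.ft U (hU.lc huniv) (2 * td (kappa Y y) - i) (td (kappa Y y) - j)
  set γ := T.gen Y U y (2 * td (kappa Y y) - i) (td (kappa Y y) - j) i j
  refine ⟨(LinearMap.range γ.g).comap (T.pull f i j).g, ?_, ⟨z, hz⟩, ?_⟩
  · have hinj := hC.injective hKf (fg_kappa hY.ft y) f i j
    let g : (LinearMap.range γ.g).comap (T.pull f i j).g →ₗ[Ω] LinearMap.range γ.g :=
      (T.pull f i j).g.restrict fun y hy => hy
    refine FiniteDimensional.of_injective g ?_
    intro a b hab
    exact Subtype.ext (hinj (congrArg Subtype.val hab))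
  · rintro y' ⟨w, hw⟩
    refine ⟨(T.H Y U (2 * td (kappa Y y) - i) (td (kappa Y y) - j)).frob w, ?_⟩
    rw [← γ.frob, hw, (T.pull f i j).frob]

/-- The vanishing over `K[t]/(p)` from the vanishing over `K(t)`. -/
theorem van_adj (hT : IsHomology T) (hG : IsGeneric T) (hC : IsCohomology T) (hK : IsKnown T)
    {K : Fld k} (hKf : FG K) (p : K[X]) [Fact (Irreducible p)] {i j : ℤ}
    (h : Van T (ratF K) (i + 1) (j + 1)) : Van T (adj K p) i j := by
  intro y hy
  obtain ⟨β, rfl⟩ := (hC.residue K hKf p i j).1 y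
  obtain ⟨B, hB, hβ, hst⟩ := fin_sub hT hG hC hK (fg_ratF hKf) (i + 1) (j + 1) β
  set N : Module.End Ω (T.G (ratF K) (i + 1) (j + 1)).E :=
    (T.G (ratF K) (i + 1) (j + 1)).frob - 1
  have hN : ∀ v ∈ B, N v ∈ B := fun v hv => Submodule.sub_mem _ (hst v hv) hv
  have h1 : Function.Injective (N.restrict hN) := by
    rw [injective_iff_map_eq_zero]
    rintro ⟨v, hv⟩ hv0
    exact Subtype.ext (h v (sub_eq_zero.mp (congrArg Subtype.val hv0)))
  have h2 := LinearMap.injective_iff_surjective.mp h1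
  -- the image of `B`
  set r := T.residue K p i j
  set N' : Module.End Ω (T.G (adj K p) i j).E := (T.G (adj K p) i j).frob - 1
  have hNr : ∀ v, N' (r v) = r (N v) := by
    intro v
    change (T.G (adj K p) i j).frob (r v) - r v = r ((T.G (ratF K) (i + 1) (j + 1)).frob v - v)
    rw [map_sub, (hC.residue K hKf p i j).2]
  have hst' : ∀ v ∈ B.map r, N' v ∈ B.map r := by
    rintro _ ⟨v, hv, rfl⟩
    exact ⟨N v, hN v hv, (hNr v).symm⟩
  have h3 : Function.Surjective (N'.restrict hst') := by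
    rintro ⟨_, v, hv, rfl⟩
    obtain ⟨⟨w, hw⟩, hw'⟩ := h2 ⟨v, hv⟩
    refine ⟨⟨r w, w, hw, rfl⟩, Subtype.ext ?_⟩
    have : N w = v := congrArg Subtype.val hw'
    change N' (r w) = r v
    rw [hNr, this]
  have h4 := LinearMap.injective_iff_surjective.mpr h3
  have h5 : N'.restrict hst' ⟨r β, β, hβ, rfl⟩ = 0 := by
    apply Subtype.ext
    change (T.G (adj K p) i j).frob (r β) - r β = 0
    rw [hy, sub_self]
  exact congrArg Subtype.val (h4 (h5.trans (map_zero _).symm))

/-- The vanishing over `K(t)` from the vanishing over `K` and over the fields `K[t]/(p)`. -/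
theorem van_ratF (hC : IsCohomology T) {K : Fld k} (hKf : FG K) {i j : ℤ}
    (h : Van T K (i + 1) (j + 1))
    (h' : ∀ (p : K[X]) [Fact (Irreducible p)], Van T (adj K p) i j) :
    Van T (ratF K) (i + 1) (j + 1) := by
  intro x hx
  obtain ⟨y, rfl⟩ := (hC.residue_zero K hKf i j x).mp fun p _ =>
    h' p _ (by rw [(hC.residue K hKf p i j).2, hx])
  have h1 : y = 0 := by
    apply h
    apply hC.injective hKf (fg_ratF hKf) (incl K)
    rw [← (T.pull (incl K) (i + 1) (j + 1)).frob, hx]
  rw [h1, map_zero]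

/-- A field is a residue field of its rational function field. -/
lemma van_down (hT : IsHomology T) (hG : IsGeneric T) (hC : IsCohomology T) (hK : IsKnown T)
    {K : Fld k} (hKf : FG K) {i j : ℤ} (h : Van T (ratF K) (i + 1) (j + 1)) : Van T K i j := by
  have hp : Fact (Irreducible (X : K[X])) := ⟨Polynomial.irreducible_X⟩
  refine van_sub hC hKf (fg_adj hKf X)
    (IsScalarTower.toAlgHom k K (AdjoinRoot (X : K[X])) : K →ₐ[k] adj K X) ?_
  exact van_adj hT hG hC hK hKf X h

/-- All finitely generated fields of transcendence degree `n` from the rational function field of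
transcendence degree `n + 1`. -/
theorem van_of_rat [PerfectField k] (hT : IsHomology T) (hG : IsGeneric T) (hC : IsCohomology T)
    (hK : IsKnown T) {i j : ℤ} {n : ℕ} (h : Van T (rat k (n + 1)) (i + 1) (j + 1)) {K : Fld k}
    (hKf : FG K) (hn : td K ≤ n) : Van T K i j := by
  obtain ⟨E, p, hp, ⟨e⟩, ⟨e'⟩⟩ := exists_adj hKf
  have hE : FG E := fg_congr e (fg_rat _)
  obtain ⟨f1⟩ := ratF_map e.symm.toAlgHom
  obtain ⟨f2⟩ := ratF_rat (k := k) (td K)
  obtain ⟨f3⟩ := rat_incl (k := k) (show td K + 1 ≤ n + 1 by omega)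
  have h1 : Van T (ratF E) (i + 1) (j + 1) :=
    van_sub hC (fg_ratF hE) (fg_rat _) ((f3.comp f2.toAlgHom).comp f1) h
  exact van_sub hC hKf (fg_adj hE p) e'.symm.toAlgHom (van_adj hT hG hC hK hE p h1)

/-- The rational function fields from all fields of smaller transcendence degree. -/
theorem van_rat (hC : IsCohomology T) {i j : ℤ} (hi : 0 ≤ i) {n : ℕ}
    (h : ∀ K : Fld k, FG K → td K < n → Van T K i j) : Van T (rat k n) (i + 1) (j + 1) := by
  induction n with
  | zero =>
    intro e _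
    exact hC.vanish _ (fg_rat 0) _ _ (by rw [td_rat]; push_cast; omega) e
  | succ n ih =>
    obtain ⟨e⟩ := ratF_rat (k := k) n
    refine van_sub hC (fg_rat _) (fg_ratF (fg_rat n)) e.symm.toAlgHom ?_
    refine van_ratF hC (fg_rat n) (ih fun K hK hn => h K hK (by omega)) fun p _ => ?_
    exact h _ (fg_adj (fg_rat n) p) (by rw [td_adj, td_rat]; omega)

end Pool.Agent.Y99.NF
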