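import Pool.Agent.Y99.NF.One

/-!
# From the conjectures of Tate and Beilinson to the vanishing at the generic points
-/

set_option autoImplicit false

open CategoryTheory AlgebraicGeometry TopologicalSpace

namespace Pool.Agent.Y99.NF

open Pool.Agent.Y116.UV Pool.Agent.Y101.Th

variable {k Ω : Type} [Field k] [Field Ω] {T : Theory k Ω} {X : Sch k}

/-- The conjectures of Tate and Beilinson and semisimplicity, for cycles of dimension `b` on smooth
projective varieties of dimension at most `n`. -/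
def Small (T : Theory k Ω) (b n : ℤ) : Prop :=
  ∀ Y : Sch k, SmProj Y → DimLE (Set.univ : Set Y.left) n → (T.H Y Set.univ (2 * b) b).Good

/-- All classes of weight zero are algebraic. -/
lemma onto_of_smproj (hK : IsKnown T) {b n : ℤ} (hA : Small T b n)
    (hX : FT True X) {S : Set X.left} (hS : IsLocallyClosed S) (hd : DimLE S n)
    {e : (T.H X S (2 * b) b).E} (he : (T.H X S (2 * b) b).Unip e) :
    e ∈ Set.range (T.H X S (2 * b) b).reg := by
  obtain ⟨Y, hY, hYd, h⟩ := hK.resolved X hX S hS n hd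
  obtain ⟨s, hs⟩ := h b
  obtain ⟨e', he', rfl⟩ := hs e he
  obtain ⟨m, rfl⟩ := (good_iff.mp (hA Y hY hYd)).2 e' he'
  exact ⟨_, s.comm m⟩

/-- An invariant class at a generic point comes from an invariant class on a neighbourhood. -/
lemma exists_inv (hG : IsGeneric T) (hX : FT True X) {S : Set X.left}
    (hS : IsLocallyClosed S) {y : X.left} (hy : IsMax S y) {a b i j : ℤ} (hi : Idx X y a b i j)
    {e : (T.G (kappa X y) i j).E} (he : (T.G (kappa X y) i j).frob e = e) :
    ∃ U, OpenIn U S ∧ y ∈ U ∧ ∃ z, (T.H X U a b).frob z = z ∧ (T.gen X U y a b i j).g z = e := by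
  obtain ⟨U, hU, hyU, z, rfl⟩ := hG.gen_onto X hX S hS y hy _ _ _ _ hi e
  have hUlc := hU.lc hS
  have hyU' := hy.mono hU.subset hyU
  have h1 : (T.gen X U y a b i j).g ((T.H X U a b).frob z - z) = 0 := by
    rw [map_sub, ← (T.gen X U y a b i j).frob, he, sub_self]
  obtain ⟨V, hV, hyV, h2⟩ := (hG.gen_zero X hX U hUlc y hyU' _ _ _ _ hi).2 _ h1
  refine ⟨V, hV.trans hU, hyV, (T.res X U V a b).g z, ?_, ?_⟩
  · rw [(T.res X U V a b).frob, ← sub_eq_zero, ← map_sub, h2]
  · exact (hG.gen_res X hX V U hUlc hV y hyU' hyV _ _ _ _ hi).2 z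

/-- The vanishing for the function field of a smooth projective variety. -/
lemma lines_smproj (hT : IsHomology T) (hG : IsGeneric T) (hK : IsKnown T) {b : ℤ}
    {Y : Sch k} (hY : SmProj Y)
    (hon : ∀ S : Set Y.left, IsLocallyClosed S → ∀ e : (T.H Y S (2 * b) b).E,
      (T.H Y S (2 * b) b).frob e = e → e ∈ Set.range (T.H Y S (2 * b) b).reg)
    (hinj : Function.Injective (T.H Y Set.univ (2 * b) b).reg) {y : Y.left}
    (hy : IsMax Set.univ y) : LineAt T (kappa Y y) b := by
  have hX := hY.ft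
  have huniv : IsLocallyClosed (Set.univ : Set Y.left) := isOpen_univ.isLocallyClosed
  constructor
  · intro hr e he
    have hi : Idx Y y (2 * b) b (2 * (td (kappa Y y) - b)) (td (kappa Y y) - b) :=
      ⟨by ring, by ring⟩
    obtain ⟨U, hU, hyU, z, hz, rfl⟩ := exists_inv hG hX huniv hy hi he
    obtain ⟨m, rfl⟩ := hon U (hU.lc huniv) z hz
    rw [← (T.gen Y U y (2 * b) b (2 * (td (kappa Y y) - b)) (td (kappa Y y) - b)).comm,
      hK.motivic _ (fg_kappa hX y) _ _ (by omega)
        ((T.gen Y U y (2 * b) b (2 * (td (kappa Y y) - b)) (td (kappa Y y) - b)).f m), map_zero]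
  · intro hr e he
    have hi : Idx Y y (2 * b + 1) b (2 * (td (kappa Y y) - b) - 1) (td (kappa Y y) - b) :=
      ⟨by ring, by ring⟩
    obtain ⟨U, hU, hyU, z, hz, rfl⟩ := exists_inv hG hX huniv hy hi he
    have hUlc := hU.lc huniv
    have htri := tri_open huniv hU
    have hZlc := htri.closed.lc huniv
    -- the boundary of `z` is algebraic
    obtain ⟨ζ, hζ⟩ := hon _ hZlc ((T.bd Y U (Set.univ \ U) (2 * b) b).g z)
      (by rw [(T.bd Y U (Set.univ \ U) (2 * b) b).frob, hz])
    have hex := hT.exact Y hX _ _ _ htri (2 * b) b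
    have h1 : (T.push Y (Set.univ \ U) Set.univ (2 * b) b).g
        ((T.bd Y U (Set.univ \ U) (2 * b) b).g z) = 0 := (hex.2.2.2 _).mpr ⟨z, rfl⟩
    rw [← hζ, ← (T.push Y (Set.univ \ U) Set.univ (2 * b) b).comm] at h1
    have h2 := hinj (h1.trans (map_zero _).symm)
    obtain ⟨μ, hμ⟩ := (hex.2.2.1 _).mp h2
    have h3 : (T.bd Y U (Set.univ \ U) (2 * b) b).g
        (z - (T.H Y U (2 * b + 1) b).reg μ) = 0 := by
      rw [map_sub, ← (T.bd Y U (Set.univ \ U) (2 * b) b).comm, hμ, hζ, sub_self]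
    have h4 : (T.H Y U (2 * b + 1) b).Unip (z - (T.H Y U (2 * b + 1) b).reg μ) :=
      unip_sub (unip_of_inv hz) (unip_of_inv ((T.H Y U (2 * b + 1) b).inv μ))
    have := hT.finite Y hX _ huniv (2 * b + 1) b
    obtain ⟨w, hw, hwz⟩ := unip_exact hex.2.1 h4 h3
    have h5 : w = 0 := unip_zero (hK.pure Y hY (2 * b + 1) b (by omega)) hw
    rw [h5, map_zero] at hwz
    have h6 : z = (T.H Y U (2 * b + 1) b).reg μ := (sub_eq_zero.mp hwz.symm)
    rw [h6, ← (T.gen Y U y (2 * b + 1) b (2 * (td (kappa Y y) - b) - 1)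
        (td (kappa Y y) - b)).comm,
      hK.motivic _ (fg_kappa hX y) _ _ (by omega)
        ((T.gen Y U y (2 * b + 1) b (2 * (td (kappa Y y) - b) - 1)
        (td (kappa Y y) - b)).f μ), map_zero]

lemma van_sub (hC : IsCohomology T) {K L : Fld k} (hK : FG K) (hL : FG L) (f : K →ₐ[k] L)
    {i j : ℤ} (h : Van T L i j) : Van T K i j := by
  intro e he
  apply hC.injective hK hL f i j
  rw [map_zero]
  apply h
  rw [(T.pull f i j).frob, he]

/-- The cycle class maps for cycles of dimension `b` are isomorphisms onto the invariants, for the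
locally closed subsets of dimension at most `n`. -/
def ClIso (T : Theory k Ω) (b n : ℤ) : Prop :=
  ∀ X : Sch k, FT True X → ∀ S : Set X.left, IsLocallyClosed S → DimLE S n →
    Function.Injective (T.H X S (2 * b) b).reg ∧
      ∀ e, (T.H X S (2 * b) b).frob e = e → e ∈ Set.range (T.H X S (2 * b) b).reg

/-- **From cycles to the generic points.** -/
theorem lines_of (hT : IsHomology T) (hG : IsGeneric T) (hC : IsCohomology T)
    (hK : IsKnown T) {b n : ℤ} (hA : Small T b n ∨ ClIso T b n)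
    {K : Fld k} (hKf : FG K) (hn : td K ≤ n) : LineAt T K b := by
  obtain ⟨Y, hY, hYd, y, hy, hyd, ⟨f⟩⟩ := hK.alteration K hKf
  have hd : DimLE (Set.univ : Set Y.left) n := fun x hx => (hYd x hx).trans hn
  have h : LineAt T (kappa Y y) b := by
    rcases hA with hA | hA
    · exact lines_smproj hT hG hK hY (fun S hS e he =>
        onto_of_smproj hK hA hY.ft hS (fun x _ => hd x trivial) (unip_of_inv he))
        (hA Y hY hd).1 hy
    · exact lines_smproj hT hG hK hY
        (fun S hS => (hA Y hY.ft S hS (fun x _ => hd x trivial)).2)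
        (hA Y hY.ft _ isOpen_univ.isLocallyClosed hd).1 hy
  have hL := fg_kappa hY.ft y
  rw [LineAt, hyd] at h
  exact ⟨fun hr => van_sub hC hKf hL f (h.1 hr), fun hr => van_sub hC hKf hL f (h.2 hr)⟩

end Pool.Agent.Y99.NF
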